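import Pool.Agent.helper21.KBR.Defs

/-!
Basic facts on metrics: invertibility of the Gram operator, derivative of the inverse,
Cauchy–Schwarz, constant speed of geodesics.
-/

noncomputable section

namespace KBR

open Set MeasureTheory Filter Topology
open scoped ContDiff RealInnerProductSpace

variable {n : ℕ}

/-- positive definite operators are invertible -/
lemma posdef_isInvertible {A : E n →L[ℝ] E n} (h : ∀ v, v ≠ 0 → 0 < ⟪A v, v⟫) :
    A.IsInvertible := by
  have hinj : Function.Injective (A : E n →ₗ[ℝ] E n) := by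
    rw [injective_iff_map_eq_zero]
    intro v hv
    by_contra hne
    have h1 := h v hne
    have h2 : A v = 0 := hv
    rw [h2, inner_zero_left] at h1
    exact lt_irrefl _ h1
  refine ⟨(LinearEquiv.ofInjectiveEndo (A : E n →ₗ[ℝ] E n) hinj).toContinuousLinearEquiv, ?_⟩
  ext v
  rfl

variable {G : E n → E n →L[ℝ] E n} {x : E n}

lemma IsMetric.inv (hG : IsMetric G) (hx : x ∈ M n) : (G x).IsInvertible :=
  posdef_isInvertible (hG.pos x hx)

lemma IsMetric.apply_inv (hG : IsMetric G) (hx : x ∈ M n) (p : E n) :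
    G x ((G x).inverse p) = p := (hG.inv hx).self_apply_inverse p

lemma IsMetric.inv_apply (hG : IsMetric G) (hx : x ∈ M n) (v : E n) :
    (G x).inverse (G x v) = v := (hG.inv hx).inverse_apply_self v

lemma IsMetric.inv_symm (hG : IsMetric G) (hx : x ∈ M n) (p q : E n) :
    ⟪(G x).inverse p, q⟫ = ⟪(G x).inverse q, p⟫ := by
  have h1 := hG.symm x hx ((G x).inverse p) ((G x).inverse q)
  rw [hG.apply_inv hx, hG.apply_inv hx] at h1
  rw [real_inner_comm, ← h1, real_inner_comm]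

lemma IsMetric.nonneg (hG : IsMetric G) (hx : x ∈ M n) (v : E n) : 0 ≤ ⟪G x v, v⟫ := by
  by_cases hv : v = 0
  · simp [hv]
  · exact (hG.pos x hx v hv).le

lemma IsMetric.inv_nonneg (hG : IsMetric G) (hx : x ∈ M n) (p : E n) :
    0 ≤ ⟪(G x).inverse p, p⟫ := by
  have h1 := hG.nonneg hx ((G x).inverse p)
  rw [hG.apply_inv hx, real_inner_comm] at h1
  exact h1

lemma IsMetric.inv_pos (hG : IsMetric G) (hx : x ∈ M n) (p : E n) (hp : p ≠ 0) :
    0 < ⟪(G x).inverse p, p⟫ := by
  have h1 : (G x).inverse p ≠ 0 := by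
    intro h
    apply hp
    rw [← hG.apply_inv hx p, h, map_zero]
  have h2 := hG.pos x hx _ h1
  rw [hG.apply_inv hx, real_inner_comm] at h2
  exact h2

/-- the inverse of the Gram operator is smooth near the ball -/
lemma IsMetric.contDiffAt_inv (hG : IsMetric G) (hx : x ∈ M n) :
    ContDiffAt ℝ ∞ (fun y => (G y).inverse) x := by
  obtain ⟨e, he⟩ := hG.inv hx
  have h1 : ContDiffAt ℝ ∞ ContinuousLinearMap.inverse (G x) := by
    rw [← he]
    exact contDiffAt_map_inverse e
  exact h1.comp x hG.smooth.contDiffAt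

/-- derivative of the inverse -/
lemma IsMetric.fderiv_inv (hG : IsMetric G) (hx : x ∈ M n) (w : E n) :
    fderiv ℝ (fun y => (G y).inverse) x w =
      -((G x).inverse.comp ((fderiv ℝ G x w).comp (G x).inverse)) := by
  obtain ⟨e, he⟩ := hG.inv hx
  set u : (E n →L[ℝ] E n)ˣ := (ContinuousLinearEquiv.unitsEquiv ℝ (E n)).symm e with hu
  have hux : (u : E n →L[ℝ] E n) = G x := by rw [← he]; rfl
  have h1 := hasFDerivAt_ringInverse (𝕜 := ℝ) u
  rw [hux] at h1
  have h2 : HasFDerivAt G (fderiv ℝ G x) x :=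
    (hG.smooth.differentiable (by simp)).differentiableAt.hasFDerivAt
  have h3 := h1.comp x h2
  have h4 : (fun y => (G y).inverse) = Ring.inverse ∘ G := by
    funext y
    rw [← ContinuousLinearMap.ringInverse_eq_inverse]
    rfl
  have h5 : ((u⁻¹ : (E n →L[ℝ] E n)ˣ) : E n →L[ℝ] E n) = (G x).inverse := by
    rw [← hux, ← ContinuousLinearMap.ringInverse_eq_inverse, Ring.inverse_unit]
  rw [h4, h3.fderiv]
  simp only [ContinuousLinearMap.comp_apply, neg_apply]
  rw [h5]
  rfl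

lemma nrm_nonneg (x v : E n) : 0 ≤ nrm G x v := Real.sqrt_nonneg _

lemma IsMetric.nrm_sq (hG : IsMetric G) (hx : x ∈ M n) (v : E n) :
    nrm G x v ^ 2 = ⟪G x v, v⟫ := Real.sq_sqrt (hG.nonneg hx v)

lemma IsMetric.nrm_pos (hG : IsMetric G) (hx : x ∈ M n) {v : E n} (hv : v ≠ 0) :
    0 < nrm G x v := Real.sqrt_pos.mpr (hG.pos x hx v hv)

lemma nrm_smul (G : E n → E n →L[ℝ] E n) (x v : E n) (a : ℝ) :
    nrm G x (a • v) = |a| * nrm G x v := by
  unfold nrm
  rw [map_smul, inner_smul_left, inner_smul_right, ← Real.sqrt_sq_eq_abs,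
    ← Real.sqrt_mul (sq_nonneg a)]
  congr 1
  simp only [conj_trivial]
  ring

/-- Cauchy–Schwarz for a metric -/
lemma IsMetric.cs (hG : IsMetric G) (hx : x ∈ M n) (u v : E n) :
    |⟪G x u, v⟫| ≤ nrm G x u * nrm G x v := by
  by_cases hv : v = 0
  · simp [hv, nrm]
  have hvv := hG.pos x hx v hv
  set a := ⟪G x u, v⟫ with ha
  have h1 := hG.nonneg hx (⟪G x v, v⟫ • u - a • v)
  have h2 : ⟪G x (⟪G x v, v⟫ • u - a • v), ⟪G x v, v⟫ • u - a • v⟫ =
      ⟪G x v, v⟫ * (⟪G x u, u⟫ * ⟪G x v, v⟫ - a ^ 2) := by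
    simp only [map_sub, map_smul, inner_sub_left, inner_sub_right, inner_smul_left,
      inner_smul_right, conj_trivial]
    rw [hG.symm x hx v u, ← ha]
    ring
  rw [h2] at h1
  have h3 : a ^ 2 ≤ ⟪G x u, u⟫ * ⟪G x v, v⟫ := by
    have := nonneg_of_mul_nonneg_right h1 hvv
    linarith
  have h4 : |a| ≤ Real.sqrt (⟪G x u, u⟫ * ⟪G x v, v⟫) := Real.abs_le_sqrt h3
  rwa [Real.sqrt_mul (hG.nonneg hx u)] at h4

/-- the metric is continuous along with its inverse: velocities are recovered from momenta -/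
lemma IsGeod.vel_eq (hG : IsMetric G) {T : ℝ} {c v : ℝ → E n} (h : IsGeod G T c v) {t : ℝ}
    (ht : t ∈ Icc 0 T) : v t = (G (c t)).inverse (G (c t) (v t)) :=
  (hG.inv_apply (h.mem t ht) (v t)).symm

/-- the momentum `p = G v` has a derivative -/
lemma IsGeod.mom_deriv {T : ℝ} {c v : ℝ → E n} (h : IsGeod G T c v) {t : ℝ}
    (ht : t ∈ Icc 0 T) : ∃ q : E n, (∀ w, ⟪q, w⟫ = 1 / 2 * ⟪fderiv ℝ G (c t) w (v t), v t⟫) ∧
      HasDerivWithinAt (fun s => G (c s) (v s)) q (Icc 0 T) t := by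
  set q : E n := WithLp.toLp 2 (fun i => 1 / 2 *
    ⟪fderiv ℝ G (c t) (EuclideanSpace.single i 1) (v t), v t⟫) with hq
  have h1 : HasDerivWithinAt (fun s => G (c s) (v s)) q (Icc 0 T) t := by
    rw [hasDerivWithinAt_iff_hasFDerivWithinAt, hasFDerivWithinAt_euclidean]
    intro i
    have h2 := h.eq t ht (EuclideanSpace.single i 1)
    have h3 : (fun s => ⟪G (c s) (v s), EuclideanSpace.single i (1:ℝ)⟫) =
        fun s => (G (c s) (v s)) i := by
      funext s
      simp [EuclideanSpace.inner_single_right]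
    rw [h3, hasDerivWithinAt_iff_hasFDerivWithinAt] at h2
    have h4 : (PiLp.proj 2 (fun _ : Fin n => ℝ) i : E n →L[ℝ] ℝ).comp
        (ContinuousLinearMap.toSpanSingleton ℝ q) = ContinuousLinearMap.toSpanSingleton ℝ
        (1 / 2 * ⟪fderiv ℝ G (c t) (EuclideanSpace.single i 1) (v t), v t⟫) := by
      ext
      simp [hq]
    have h5 := h2
    rw [← h4] at h5
    exact h5
  refine ⟨q, fun w => ?_, h1⟩
  have h4 : ⟪q, w⟫ = ∑ i, w i * (1 / 2 *
      ⟪fderiv ℝ G (c t) (EuclideanSpace.single i 1) (v t), v t⟫) := by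
    simp [hq, PiLp.inner_apply]
  have h5 : w = ∑ i, w i • EuclideanSpace.single i (1 : ℝ) := by
    have := (EuclideanSpace.basisFun (Fin n) ℝ).sum_repr w
    simpa using this.symm
  rw [h4]
  conv_rhs => rw [h5]
  simp only [map_sum, map_smul, _root_.sum_apply, _root_.smul_apply,
    sum_inner, inner_smul_left, conj_trivial, Finset.mul_sum]
  apply Finset.sum_congr rfl
  intro i _
  ring

end KBR
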