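import Pool.Agent.helper21.KBR.Defs

noncomputable section

namespace KBR

open Set MeasureTheory
open scoped ContDiff RealInnerProductSpace

variable {n : ℕ}

/-- Hamiltonian vector field on `ℝⁿ × ℝⁿ` -/
def XH (H : E n × E n → ℝ) (z : E n × E n) : E n × E n :=
  ((InnerProductSpace.toDual ℝ (E n)).symm
      ((fderiv ℝ H z).comp (ContinuousLinearMap.inr ℝ (E n) (E n))),
   -(InnerProductSpace.toDual ℝ (E n)).symm
      ((fderiv ℝ H z).comp (ContinuousLinearMap.inl ℝ (E n) (E n))))

/-- dual square norm of a covector -/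
def dsq (G : E n → E n →L[ℝ] E n) (z : E n × E n) : ℝ := ⟪(G z.1).inverse z.2, z.2⟫

end KBR
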