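import Mathlib

/-!
# Boundary rigidity in the (almost) Kähler class: definitions

`E n = ℝⁿ`, `M n` is the closed unit ball, `bM n` its boundary sphere (every simple manifold is
diffeomorphic to a closed ball).  A Riemannian metric on `M n` is given by its Gram operator
field `G`:  `g_x(u, v) = ⟪G x u, v⟫`.
-/

noncomputable section

namespace KBR

open Set MeasureTheory
open scoped ContDiff RealInnerProductSpace

/-- `ℝⁿ` -/
abbrev E (n : ℕ) : Type := EuclideanSpace ℝ (Fin n)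

/-- the closed unit ball, our manifold with boundary -/
def M (n : ℕ) : Set (E n) := Metric.closedBall 0 1

/-- the boundary of `M n` -/
def bM (n : ℕ) : Set (E n) := Metric.sphere 0 1

variable {n : ℕ}

/-- `G` is (the Gram operator field of) a smooth Riemannian metric on the closed ball,
smooth up to the boundary. -/
structure IsMetric (G : E n → E n →L[ℝ] E n) : Prop where
  smooth : ContDiff ℝ ∞ G
  symm : ∀ x ∈ M n, ∀ u v, ⟪G x u, v⟫ = ⟪G x v, u⟫
  pos : ∀ x ∈ M n, ∀ v, v ≠ 0 → 0 < ⟪G x v, v⟫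

/-- norm of the tangent vector `v` at `x` -/
def nrm (G : E n → E n →L[ℝ] E n) (x v : E n) : ℝ := Real.sqrt ⟪G x v, v⟫

/-- `c : [0,1] → M` is a `C¹` path from `x` to `y` in the closed ball. -/
structure IsPath (c : ℝ → E n) (x y : E n) : Prop where
  smooth : ContDiffOn ℝ 1 c (Icc 0 1)
  source : c 0 = x
  target : c 1 = y
  mem : ∀ t ∈ Icc (0 : ℝ) 1, c t ∈ M n

/-- length of a path -/
def len (G : E n → E n →L[ℝ] E n) (c : ℝ → E n) : ℝ :=
  ∫ t in (0 : ℝ)..1, nrm G (c t) (derivWithin c (Icc 0 1) t)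

/-- Riemannian distance of the closed ball: infimum of the lengths of paths inside it -/
def rdist (G : E n → E n →L[ℝ] E n) (x y : E n) : ℝ :=
  sInf {l | ∃ c, IsPath c x y ∧ l = len G c}

/-- `c : [0,T] → M` is a geodesic of `G` with velocity field `v`: the Euler–Lagrange equation
`d/dt g(c', w) = ½ (D_w g)(c', c')` of the energy (for all constant fields `w`). -/
structure IsGeod (G : E n → E n →L[ℝ] E n) (T : ℝ) (c v : ℝ → E n) : Prop where
  mem : ∀ t ∈ Icc 0 T, c t ∈ M n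
  vel : ∀ t ∈ Icc 0 T, HasDerivWithinAt c (v t) (Icc 0 T) t
  eq : ∀ t ∈ Icc 0 T, ∀ w : E n, HasDerivWithinAt (fun s => ⟪G (c s) (v s), w⟫)
    (1 / 2 * ⟪fderiv ℝ G (c t) w (v t), v t⟫) (Icc 0 T) t

/-- maximal domain of the exponential map at `x`: initial velocities of the geodesics
`[0,1] → M` starting at `x` -/
def expDom (G : E n → E n →L[ℝ] E n) (x : E n) : Set (E n) :=
  {w | ∃ c v, IsGeod G 1 c v ∧ c 0 = x ∧ v 0 = w}

/-- `exp_x` is a diffeomorphism from its maximal domain onto `M`. (`e` is the exponential map,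
`L` its inverse.) -/
def ExpDiffeo (G : E n → E n →L[ℝ] E n) (x : E n) : Prop :=
  ∃ e L : E n → E n,
    (∀ c v, IsGeod G 1 c v → c 0 = x → c 1 = e (v 0)) ∧
    ContDiffOn ℝ ∞ e (expDom G x) ∧ ContDiffOn ℝ ∞ L (M n) ∧
    (∀ y ∈ M n, L y ∈ expDom G x ∧ e (L y) = y) ∧ (∀ w ∈ expDom G x, L (e w) = w)

/-- `J` is a smooth almost complex structure on `M`, `G` is `J`-invariant and its fundamental
form `ω(u, v) = g(J u, v)` is closed: `(G, J)` is an almost Kähler structure on `M`
(Kähler when `J` is integrable). -/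
structure IsAlmostKahler (G J : E n → E n →L[ℝ] E n) : Prop where
  metric : IsMetric G
  smoothJ : ContDiff ℝ ∞ J
  sq : ∀ x ∈ M n, ∀ v, J x (J x v) = -v
  inv : ∀ x ∈ M n, ∀ u v, ⟪G x (J x u), J x v⟫ = ⟪G x u, v⟫
  closed : ∀ x ∈ M n, ∀ u v w,
    ⟪fderiv ℝ (fun y => (G y).comp (J y)) x u v, w⟫ +
    ⟪fderiv ℝ (fun y => (G y).comp (J y)) x v w, u⟫ +
    ⟪fderiv ℝ (fun y => (G y).comp (J y)) x w u, v⟫ = 0

end KBR
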