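import Pool.Agent.helper21.KBR.Seg
import Pool.Agent.helper30.KBR.Ellipsoid

/-!
The energy inequality and its equality case.
-/

noncomputable section

namespace KBR

open Set MeasureTheory Filter Topology
open scoped ContDiff RealInnerProductSpace

variable {n : ℕ} {G B : E n → E n →L[ℝ] E n}

lemma vl_contAt (hG : IsMetric G) {z : E n × E n} (hz : z ∈ CM n) : ContinuousAt (vl G) z := by
  have h1 : ContinuousAt (fun y => (G y).inverse) z.1 := (hG.contDiffAt_inv hz).continuousAt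
  have h2 : ContinuousAt (fun w : E n × E n => (G w.1).inverse) z :=
    h1.comp (f := Prod.fst) continuous_fst.continuousAt
  exact h2.clm_apply continuous_snd.continuousAt

lemma dsq_contAt (hG : IsMetric G) {z : E n × E n} (hz : z ∈ CM n) : ContinuousAt (dsq G) z := by
  have h1 := vl_contAt hG hz
  exact h1.inner continuous_snd.continuousAt

lemma vl_contOn (hG : IsMetric G) : ContinuousOn (vl G) (CM n) :=
  fun _ hz => (vl_contAt hG hz).continuousWithinAt

lemma dsq_contOn (hG : IsMetric G) : ContinuousOn (dsq G) (CM n) :=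
  fun _ hz => (dsq_contAt hG hz).continuousWithinAt

/-- closed codisc bundle -/
def Ab (G : E n → E n →L[ℝ] E n) : Set (E n × E n) := {z | z.1 ∈ M n ∧ dsq G z ≤ 1}

/-- codisc bundle without the zero section -/
def Ao (G : E n → E n →L[ℝ] E n) : Set (E n × E n) := {z | z.1 ∈ M n ∧ 0 < dsq G z ∧ dsq G z ≤ 1}

lemma mom_bound (hG : IsMetric G) : ∃ K : ℝ, ∀ z ∈ Ab G, ‖z.2‖ ≤ K := by
  have hMc : IsCompact (M n) := isCompact_closedBall _ _
  obtain ⟨C, hC⟩ := hMc.exists_bound_of_continuousOn hG.smooth.continuous.continuousOn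
  refine ⟨Real.sqrt (max C 0), fun z hz => ?_⟩
  obtain ⟨hz1, hz2⟩ := hz
  by_cases hp : z.2 = 0
  · rw [hp, norm_zero]; exact Real.sqrt_nonneg _
  have hpn : 0 < ‖z.2‖ := norm_pos_iff.mpr hp
  have h1 := hG.cs hz1 (vl G z) z.2
  rw [nrm_vl hG hz1, vl, hG.apply_inv hz1, real_inner_self_eq_norm_sq,
    abs_of_nonneg (sq_nonneg _)] at h1
  have h2 : Real.sqrt (dsq G z) ≤ 1 := by
    rw [← Real.sqrt_one]; exact Real.sqrt_le_sqrt hz2
  have h3 : nrm G z.1 z.2 ≤ Real.sqrt (max C 0) * ‖z.2‖ := by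
    unfold nrm
    rw [← Real.sqrt_sq (norm_nonneg z.2), ← Real.sqrt_mul (le_max_right _ _)]
    apply Real.sqrt_le_sqrt
    calc ⟪G z.1 z.2, z.2⟫ ≤ ‖G z.1 z.2‖ * ‖z.2‖ := real_inner_le_norm _ _
      _ ≤ (‖G z.1‖ * ‖z.2‖) * ‖z.2‖ :=
          mul_le_mul_of_nonneg_right ((G z.1).le_opNorm _) (norm_nonneg _)
      _ ≤ (max C 0 * ‖z.2‖) * ‖z.2‖ := by
          apply mul_le_mul_of_nonneg_right _ (norm_nonneg _)
          apply mul_le_mul_of_nonneg_right _ (norm_nonneg _)
          exact (hC _ hz1).trans (le_max_left _ _)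
      _ = max C 0 * ‖z.2‖ ^ 2 := by ring
  have h4 : ‖z.2‖ ^ 2 ≤ Real.sqrt (max C 0) * ‖z.2‖ := by
    calc ‖z.2‖ ^ 2 ≤ Real.sqrt (dsq G z) * nrm G z.1 z.2 := h1
      _ ≤ 1 * nrm G z.1 z.2 := mul_le_mul_of_nonneg_right h2 (nrm_nonneg _ _)
      _ = nrm G z.1 z.2 := one_mul _
      _ ≤ _ := h3
  nlinarith

lemma Ab_compact (hG : IsMetric G) : IsCompact (Ab G) := by
  obtain ⟨K, hK⟩ := mom_bound hG
  have hcl : IsClosed (Ab G) := by
    have : Ab G = CM n ∩ dsq G ⁻¹' (Iic 1) := rfl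
    rw [this]
    exact (dsq_contOn hG).preimage_isClosed_of_isClosed isClosed_CM isClosed_Iic
  refine (((isCompact_closedBall (0 : E n) 1).prod
    (isCompact_closedBall (0 : E n) K))).of_isClosed_subset hcl ?_
  rintro z hz
  exact ⟨hz.1, by simpa using hK z hz⟩

lemma Ao_sub : Ao G ⊆ Ab G := fun _ hz => ⟨hz.1, hz.2.2⟩

lemma Ao_meas (hG : IsMetric G) : MeasurableSet (Ao G) := by
  have h1 : Ao G = Ab G \ (CM n ∩ dsq G ⁻¹' (Iic 0)) := by
    ext z
    simp only [Ao, Ab, CM, Set.mem_sdiff, mem_inter_iff, mem_ofPred_eq, mem_preimage, mem_Iic, not_and,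
      not_le]
    constructor
    · rintro ⟨h1, h2, h3⟩
      exact ⟨⟨h1, h3⟩, fun _ => h2⟩
    · rintro ⟨⟨h1, h3⟩, h2⟩
      exact ⟨h1, h2 h1, h3⟩
  rw [h1]
  exact (Ab_compact hG).isClosed.measurableSet.diff
    ((dsq_contOn hG).preimage_isClosed_of_isClosed isClosed_CM isClosed_Iic).measurableSet

lemma Ab_finite (hG : IsMetric G) : volume (Ab G) ≠ ⊤ := (Ab_compact hG).measure_lt_top.ne

lemma Ao_finite (hG : IsMetric G) : volume (Ao G) ≠ ⊤ :=
  ((measure_mono Ao_sub).trans_lt (Ab_compact hG).measure_lt_top).ne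

lemma nrmB_contOn (hG : IsMetric G) (hB : Continuous B) :
    ContinuousOn (fun z : E n × E n => nrm B z.1 (vl G z)) (CM n) := by
  have h1 : ContinuousOn (fun z : E n × E n => (z.1, vl G z)) (CM n) :=
    continuous_fst.continuousOn.prodMk (vl_contOn hG)
  have h2 := (RB.nrm_cont B hB).comp_continuousOn h1
  exact h2

lemma Fz_contOn (hG : IsMetric G) (hB : Continuous B) : ContinuousOn (Fz G B) (CM n) := by
  have h1 : ContinuousOn (fun z => Real.sqrt (dsq G z)) (CM n) :=
    (dsq_contOn hG).sqrt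
  exact h1.mul ((nrmB_contOn hG hB).sub h1)

/-- Step 2: the transported inequality. -/
theorem int_Fz_nonneg {G₂ : E n → E n →L[ℝ] E n} (hG : IsMetric G)
    (hE : ∀ x ∈ M n, ExpDiffeo G x) (hG₂ : Continuous G₂)
    (ψ : E n → E n) (hψ : ContDiff ℝ ∞ ψ) (hψM : MapsTo ψ (M n) (M n))
    (hψb : ∀ x ∈ bM n, ψ x = x)
    (hd : ∀ a ∈ bM n, ∀ b ∈ bM n, rdist G a b ≤ rdist G₂ a b) :
    0 ≤ ∫ z in Ao G, Fz G (pb ψ G₂) z := by
  classical
  obtain ⟨φ, hφ, h0, hadd, hmp, hgeo'⟩ := geodesic_flow G hG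
  have hgeo : GeoProp G φ := hgeo'
  have hBc := pb_continuous ψ hψ hG₂
  set F₀ := Fz G (pb ψ G₂) with hF₀
  have hF₀c : ContinuousOn F₀ (CM n) := Fz_contOn hG hBc
  have hAC : Ao G ⊆ CM n := fun z hz => hz.1
  have hinv : ∀ z ∈ Ao G, ∀ s ∈ orbI φ (CM n) z, φ s z ∈ Ao G := by
    intro z hz s hs
    have h1 := (hgeo z hz.1 hz.2.2 s hs).1
    refine ⟨hs s right_mem_uIcc, ?_, ?_⟩
    · rw [h1]; exact hz.2.1
    · rw [h1]; exact hz.2.2
  have hmeas : Measurable ((Ao G).piecewise F₀ 0) :=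
    (hF₀c.mono hAC).measurable_piecewise continuousOn_const (Ao_meas hG)
  obtain ⟨K, hK⟩ := (Ab_compact hG).exists_bound_of_continuousOn (hF₀c.mono (fun z hz => hz.1))
  have hpw : ∀ z ∈ Ao G, (Ao G).piecewise F₀ 0 z = F₀ z := fun z hz => by
    simp [Set.piecewise, hz]
  have key := transport (volume : Measure (E n × E n)) φ hφ h0 hadd hmp (CM n) (Ao G)
    isClosed_CM hAC (Ao_meas hG) (Ao_finite hG) hinv ((Ao G).piecewise F₀ 0) hmeas
    ⟨K, fun z hz => by rw [hpw z hz]; exact hK z (Ao_sub hz)⟩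
    (fun z hz => orbI_bdd hG hgeo h0 hE hz.1 hz.2.1 hz.2.2) ?_ ?_
  · rw [setIntegral_congr_fun (Ao_meas hG) hpw] at key
    exact key
  · -- positivity of the time interval for interior points
    have hsph : ∀ᵐ z : E n × E n, z.1 ∉ bM n := by
      have h1 : volume {z : E n × E n | z.1 ∈ bM n} = 0 := by
        have h2 : {z : E n × E n | z.1 ∈ bM n} = (bM n) ×ˢ univ := by
          ext z; simp
        rw [h2, Measure.volume_eq_prod, Measure.prod_prod]
        rw [show volume (bM n) = 0 from Measure.addHaar_sphere_of_ne_zero _ _ one_ne_zero, zero_mul]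
      rw [ae_iff]
      simpa using h1
    filter_upwards [ae_restrict_of_ae hsph, ae_restrict_mem (Ao_meas hG)] with z hz hzA
    have hball : z.1 ∈ Metric.ball (0 : E n) 1 := by
      have h1 := hzA.1
      rw [M, Metric.mem_closedBall] at h1
      rw [bM, Metric.mem_sphere] at hz
      exact Metric.mem_ball.mpr (lt_of_le_of_ne h1 hz)
    have hc : Continuous (fun r : ℝ => (φ r z).1) :=
      continuous_fst.comp (hφ.comp (continuous_id.prodMk continuous_const))
    have hn := hc.continuousAt.preimage_mem_nhds (x := (0 : ℝ)) (t := Metric.ball (0 : E n) 1)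
      (by rw [h0]; exact Metric.isOpen_ball.mem_nhds hball)
    obtain ⟨ε, hε, hεs⟩ := Metric.mem_nhds_iff.mp hn
    have hsub : Ioo (-ε) ε ⊆ orbI φ (CM n) z := by
      intro s hs r hr
      have hr' : r ∈ Metric.ball (0 : ℝ) ε := by
        rw [Metric.mem_ball, Real.dist_eq, sub_zero, abs_lt]
        rw [mem_uIcc] at hr
        rcases hr with hr | hr
        · exact ⟨by linarith [hr.1], by linarith [hr.2, hs.2]⟩
        · exact ⟨by linarith [hr.1, hs.1], by linarith [hr.2]⟩
      exact ball_subset_M (hεs hr')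
    refine lt_of_lt_of_le ?_ (measure_mono hsub)
    rw [Real.volume_Ioo]
    simpa using by linarith
  · intro z hz
    have h1 := orbit_integral hG hE hG₂ ψ hψ hψM hψb hd hφ h0 hgeo hz.1 hz.2.1 hz.2.2
    have hIm : MeasurableSet (orbI φ (CM n) z) := by
      have := (orbI_closed φ hφ (CM n) isClosed_CM).preimage
        (f := fun s : ℝ => (s, z)) (by fun_prop)
      exact this.measurableSet
    rw [setIntegral_congr_fun hIm (g := fun r => F₀ (φ r z))
      (fun r hr => hpw _ (hinv z hz r hr))]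
    exact h1

/-- Step 4: the ellipsoid formula integrated over the ball. -/
theorem int_quad (hG : IsMetric G) (D : E n → E n →L[ℝ] E n) (hD : Continuous D) :
    ∃ c : ℝ, 0 < c ∧ ∫ z in Ab G, ⟪D z.1 (vl G z), vl G z⟫ =
      c * ∫ x in M n, Real.sqrt (G x).det * LinearMap.trace ℝ (E n)
      (((G x).inverse.comp (D x) : E n →L[ℝ] E n) : E n →ₗ[ℝ] E n) := by
  obtain ⟨c, hc, hell⟩ := ellipsoid (n := n)
  refine ⟨c, hc, ?_⟩
  have hcont : ContinuousOn (fun z : E n × E n => ⟪D z.1 (vl G z), vl G z⟫) (Ab G) := by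
    have h1 : ContinuousOn (vl G) (Ab G) := (vl_contOn hG).mono (fun z hz => hz.1)
    have h2 : ContinuousOn (fun z : E n × E n => D z.1) (Ab G) :=
      (hD.comp continuous_fst).continuousOn
    exact (h2.clm_apply h1).inner h1
  have hint : IntegrableOn (fun z : E n × E n => ⟪D z.1 (vl G z), vl G z⟫) (Ab G) :=
    hcont.integrableOn_compact (Ab_compact hG)
  have hAm : MeasurableSet (Ab G) := (Ab_compact hG).isClosed.measurableSet
  have hMm : MeasurableSet (M n) := Metric.isClosed_closedBall.measurableSet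
  rw [← integral_indicator hAm, Measure.volume_eq_prod, integral_prod _ (by
    rw [← Measure.volume_eq_prod]; exact (integrable_indicator_iff hAm).mpr hint),
    ← integral_indicator hMm, ← integral_const_mul]
  congr 1
  funext x
  by_cases hx : x ∈ M n
  · rw [indicator_of_mem hx, ← hell (G x) (D x) (hG.symm x hx) (hG.pos x hx)]
    have hSm : MeasurableSet {p : E n | ⟪(G x).inverse p, p⟫ ≤ 1} := by
      apply measurableSet_le
      · exact (Continuous.inner (by fun_prop) continuous_id).measurable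
      · exact measurable_const
    rw [← integral_indicator hSm]
    congr 1
    funext p
    by_cases hp : ⟪(G x).inverse p, p⟫ ≤ 1
    · rw [indicator_of_mem (show (x, p) ∈ Ab G from ⟨hx, hp⟩), indicator_of_mem (by exact hp)]
      rfl
    · rw [indicator_of_notMem (show (x, p) ∉ Ab G from fun h => hp h.2),
        indicator_of_notMem (by exact hp)]
  · rw [indicator_of_notMem hx, mul_zero]
    have : (fun y => (Ab G).indicator (fun z : E n × E n => ⟪D z.1 (vl G z), vl G z⟫) (x, y)) =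
        fun _ => 0 := by
      funext p
      exact indicator_of_notMem (fun h => hx h.1) _
    rw [this]
    simp

/-- Energy inequality and its equality case. -/
theorem energy {G₂ : E n → E n →L[ℝ] E n} (hG : IsMetric G)
    (hE : ∀ x ∈ M n, ExpDiffeo G x) (hG₂ : IsMetric G₂)
    (ψ : E n → E n) (hψ : ContDiff ℝ ∞ ψ) (hψM : MapsTo ψ (M n) (M n))
    (hψb : ∀ x ∈ bM n, ψ x = x)
    (hd : ∀ a ∈ bM n, ∀ b ∈ bM n, rdist G a b ≤ rdist G₂ a b) :
    (0 ≤ ∫ x in M n, Real.sqrt (G x).det * LinearMap.trace ℝ (E n)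
      (((G x).inverse.comp (pb ψ G₂ x - G x) : E n →L[ℝ] E n) : E n →ₗ[ℝ] E n)) ∧
    ((∫ x in M n, Real.sqrt (G x).det * LinearMap.trace ℝ (E n)
      (((G x).inverse.comp (pb ψ G₂ x - G x) : E n →L[ℝ] E n) : E n →ₗ[ℝ] E n)) ≤ 0 →
      ∀ x ∈ M n, ∀ v, ⟪pb ψ G₂ x v, v⟫ = ⟪G x v, v⟫) := by
  have hBc := pb_continuous ψ hψ hG₂.smooth.continuous
  have hF := int_Fz_nonneg hG hE hG₂.smooth.continuous ψ hψ hψM hψb hd
  obtain ⟨c, hc, hquad⟩ := int_quad hG (fun x => pb ψ G₂ x - G x)
    (hBc.sub hG.smooth.continuous)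
  set I := ∫ x in M n, Real.sqrt (G x).det * LinearMap.trace ℝ (E n)
      (((G x).inverse.comp (pb ψ G₂ x - G x) : E n →L[ℝ] E n) : E n →ₗ[ℝ] E n) with hI
  set B := pb ψ G₂ with hB
  have hBnn : ∀ x ∈ M n, ∀ v, 0 ≤ ⟪B x v, v⟫ := by
    intro x hx v
    rw [hB, pb_inner]
    exact hG₂.nonneg (hψM hx) _
  have hBsq : ∀ z ∈ CM n, nrm B z.1 (vl G z) ^ 2 = ⟪B z.1 (vl G z), vl G z⟫ := fun z hz =>
    Real.sq_sqrt (hBnn _ hz _)
  have hGv : ∀ z ∈ CM n, ⟪G z.1 (vl G z), vl G z⟫ = dsq G z := by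
    intro z hz
    rw [vl, hG.apply_inv hz, real_inner_comm]
    rfl
  -- `∫_{Ao}` of the quadratic form
  have hq1 : ∫ z in Ao G, ⟪(B z.1 - G z.1) (vl G z), vl G z⟫ = c * I := by
    rw [← hquad]
    symm
    apply setIntegral_eq_of_subset_of_forall_sdiff_eq_zero
      (Ab_compact hG).isClosed.measurableSet Ao_sub
    rintro z ⟨hz1, hz2⟩
    have h1 : dsq G z ≤ 0 := by
      by_contra h
      push Not at h
      exact hz2 ⟨hz1.1, h, hz1.2⟩
    have h2 : z.2 = 0 := by
      by_contra h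
      exact absurd h1 (not_le.mpr (hG.inv_pos hz1.1 _ h))
    have h3 : vl G z = 0 := by rw [vl, h2, map_zero]
    rw [h3]
    simp
  have hAoCM : Ao G ⊆ CM n := fun z hz => hz.1
  have hcompInt : ∀ f : E n × E n → ℝ, ContinuousOn f (CM n) → IntegrableOn f (Ao G) := by
    intro f hf
    exact ((hf.mono (fun z hz => hz.1)).integrableOn_compact (Ab_compact hG)).mono_set Ao_sub
  have hFc : ContinuousOn (Fz G B) (CM n) := Fz_contOn hG hBc
  have hQc : ContinuousOn (fun z : E n × E n => ⟪(B z.1 - G z.1) (vl G z), vl G z⟫) (CM n) := by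
    have h2 : ContinuousOn (fun z : E n × E n => B z.1 - G z.1) (CM n) :=
      ((hBc.sub hG.smooth.continuous).comp continuous_fst).continuousOn
    exact (h2.clm_apply (vl_contOn hG)).inner (vl_contOn hG)
  set R : E n × E n → ℝ := fun z => (nrm B z.1 (vl G z) - Real.sqrt (dsq G z)) ^ 2 with hR
  have hRc : ContinuousOn R (CM n) :=
    ((nrmB_contOn hG hBc).sub (dsq_contOn hG).sqrt).pow 2
  have hid : ∀ z ∈ Ao G, R z = ⟪(B z.1 - G z.1) (vl G z), vl G z⟫ - 2 * Fz G B z := by
    intro z hz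
    have h1 := hBsq z hz.1
    have h2 := hGv z hz.1
    have h3 : Real.sqrt (dsq G z) ^ 2 = dsq G z := Real.sq_sqrt hz.2.1.le
    simp only [hR, Fz, _root_.sub_apply, inner_sub_left]
    rw [h2, ← h1]
    nlinarith [h3]
  have hRint : ∫ z in Ao G, R z = c * I - 2 * ∫ z in Ao G, Fz G B z := by
    rw [setIntegral_congr_fun (Ao_meas hG) hid, integral_sub (hcompInt _ hQc)
      ((hcompInt _ hFc).const_mul 2), hq1, integral_const_mul]
  have hRnn : 0 ≤ ∫ z in Ao G, R z := integral_nonneg (fun z => sq_nonneg _)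
  refine ⟨?_, fun hI0 => ?_⟩
  · have h1 : 0 ≤ c * I := by linarith
    exact nonneg_of_mul_nonneg_right h1 hc
  · have hR0 : ∫ z in Ao G, R z = 0 := by
      apply le_antisymm _ hRnn
      have h1 : c * I ≤ 0 := mul_nonpos_of_nonneg_of_nonpos hc.le hI0
      linarith
    have hae : R =ᵐ[volume.restrict (Ao G)] 0 :=
      (integral_eq_zero_iff_of_nonneg (fun z => sq_nonneg _) (hcompInt _ hRc)).mp hR0
    -- open subset
    set U : Set (E n × E n) := {z | z.1 ∈ Metric.ball (0 : E n) 1 ∧ 0 < dsq G z ∧ dsq G z < 1}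
      with hU
    have hUo : IsOpen U := by
      have hW : IsOpen {z : E n × E n | z.1 ∈ Metric.ball (0 : E n) 1} :=
        Metric.isOpen_ball.preimage continuous_fst
      have h1 : U = {z : E n × E n | z.1 ∈ Metric.ball (0 : E n) 1} ∩ dsq G ⁻¹' (Ioo 0 1) := rfl
      rw [h1]
      exact ((dsq_contOn hG).mono (fun z hz => ball_subset_M hz)).isOpen_inter_preimage hW
        isOpen_Ioo
    have hUA : U ⊆ Ao G := fun z hz => ⟨ball_subset_M hz.1, hz.2.1, hz.2.2.le⟩
    have haeU : R =ᵐ[volume.restrict U] 0 := ae_restrict_of_ae_restrict_of_subset hUA hae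
    have hEq : EqOn R 0 U := Measure.eqOn_open_of_ae_eq haeU hUo
      (hRc.mono (fun z hz => ball_subset_M hz.1)) continuousOn_const
    -- interior points
    have hball : ∀ x ∈ Metric.ball (0 : E n) 1, ∀ v, ⟪B x v, v⟫ = ⟪G x v, v⟫ := by
      intro x hx v
      by_cases hv : v = 0
      · simp [hv]
      have hxM := ball_subset_M hx
      have hvv := hG.pos x hxM v hv
      set t : ℝ := 1 / Real.sqrt (2 * ⟪G x v, v⟫) with ht
      have ht0 : 0 < t := by positivity
      have ht2 : t ^ 2 * ⟪G x v, v⟫ = 1 / 2 := by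
        rw [ht, div_pow, Real.sq_sqrt (by positivity)]
        field_simp
      set z : E n × E n := (x, G x (t • v)) with hz
      have hvl : vl G z = t • v := hG.inv_apply hxM _
      have hdz : dsq G z = 1 / 2 := by
        rw [← hGv z hxM, hvl]
        simp only [hz, map_smul, inner_smul_left, inner_smul_right, conj_trivial]
        rw [← ht2]; ring
      have hzU : z ∈ U := ⟨hx, by rw [hdz]; norm_num, by rw [hdz]; norm_num⟩
      have h1 := hEq hzU
      have h2 : nrm B z.1 (vl G z) = Real.sqrt (dsq G z) := by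
        have : (nrm B z.1 (vl G z) - Real.sqrt (dsq G z)) ^ 2 = 0 := h1
        exact sub_eq_zero.mp (pow_eq_zero_iff (two_ne_zero) |>.mp this)
      have h3 : ⟪B z.1 (vl G z), vl G z⟫ = ⟪G z.1 (vl G z), vl G z⟫ := by
        rw [← hBsq z hxM, h2, Real.sq_sqrt (by rw [hdz]; norm_num), hGv z hxM]
      rw [hvl] at h3
      simp only [hz, map_smul, inner_smul_left, inner_smul_right, conj_trivial] at h3
      have ht' : t * t ≠ 0 := by positivity
      have h4 : (t * t) * ⟪B x v, v⟫ = (t * t) * ⟪G x v, v⟫ := by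
        rw [mul_assoc, mul_assoc]; exact h3
      exact mul_left_cancel₀ ht' h4
    intro x hx v
    have hcl : x ∈ closure (Metric.ball (0 : E n) 1) := by
      rw [closure_ball (0 : E n) one_ne_zero]; exact hx
    have hcB : Continuous (fun y => ⟪B y v, v⟫) := by fun_prop
    have hcG : Continuous (fun y => ⟪G y v, v⟫) := by
      have := hG.smooth.continuous
      fun_prop
    have hclosed : IsClosed {y | ⟪B y v, v⟫ = ⟪G y v, v⟫} := isClosed_eq hcB hcG
    exact closure_minimal (fun y hy => hball y hy v) hclosed hcl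

end KBR
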