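import Pool.Agent.helper21.KBR.Energy
import Pool.Agent.helper25.KBR.D2
import Pool.Agent.helper30.KBR.PullClosed
import Pool.Agent.helper18.KBR.BoundaryEq

noncomputable section

namespace KBR

open Set MeasureTheory Filter Topology
open scoped ContDiff RealInnerProductSpace

variable {n : ℕ}

/-- volume of `(M, g)` -/
def vol (G : E n → E n →L[ℝ] E n) : ℝ := ∫ x in M n, Real.sqrt (G x).det

/-- `∫_M tr_{g}(b) dV_g` for a symmetric bilinear form field `b(u, v) = ⟪B x u, v⟫` -/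
def trInt (G B : E n → E n →L[ℝ] E n) : ℝ :=
  ∫ x in M n, Real.sqrt (G x).det * LinearMap.trace ℝ (E n)
    (((G x).inverse.comp (B x) : E n →L[ℝ] E n) : E n →ₗ[ℝ] E n)

lemma sqrt_det_contOn {G : E n → E n →L[ℝ] E n} (hG : Continuous G) :
    Continuous (fun x => Real.sqrt (G x).det) := by
  have : Continuous (fun A : E n →L[ℝ] E n => A.det) := ContinuousLinearMap.continuous_det
  exact (this.comp hG).sqrt

lemma trace_continuous : Continuous (fun A : E n →L[ℝ] E n =>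
    LinearMap.trace ℝ (E n) (A : E n →ₗ[ℝ] E n)) := by
  have h : Continuous ((LinearMap.trace ℝ (E n)).comp
      (ContinuousLinearMap.coeLM ℝ : (E n →L[ℝ] E n) →ₗ[ℝ] (E n →ₗ[ℝ] E n))) :=
    LinearMap.continuous_of_finiteDimensional _
  exact h

/-- the trace integral of `B - G` -/
lemma trInt_sub {G B : E n → E n →L[ℝ] E n} (hG : IsMetric G) (hB : Continuous B) :
    (∫ x in M n, Real.sqrt (G x).det * LinearMap.trace ℝ (E n)
      (((G x).inverse.comp (B x - G x) : E n →L[ℝ] E n) : E n →ₗ[ℝ] E n)) =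
    trInt G B - n * vol G := by
  have hMc : IsCompact (M n) := isCompact_closedBall _ _
  have hs := sqrt_det_contOn hG.smooth.continuous
  have hinvc : ContinuousOn (fun x => (G x).inverse) (M n) := fun x hx =>
    (hG.contDiffAt_inv hx).continuousAt.continuousWithinAt
  have h1 : ContinuousOn (fun x => Real.sqrt (G x).det * LinearMap.trace ℝ (E n)
      (((G x).inverse.comp (B x) : E n →L[ℝ] E n) : E n →ₗ[ℝ] E n)) (M n) :=
    hs.continuousOn.mul (trace_continuous.comp_continuousOn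
      (hinvc.clm_comp hB.continuousOn))
  have h0 : IntegrableOn (fun x => (n : ℝ) * Real.sqrt (G x).det) (M n) :=
    (continuous_const.mul hs).continuousOn.integrableOn_compact hMc
  unfold trInt vol
  rw [← integral_const_mul, ← integral_sub (h1.integrableOn_compact hMc) h0]
  apply setIntegral_congr_fun Metric.isClosed_closedBall.measurableSet
  intro x hx
  have h2 : (G x).inverse.comp (B x - G x) = (G x).inverse.comp (B x) -
      ContinuousLinearMap.id ℝ (E n) := by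
    ext v : 1
    simp only [ContinuousLinearMap.comp_apply, _root_.sub_apply, map_sub,
      ContinuousLinearMap.id_apply]
    rw [hG.inv_apply hx]
  have h3 : (((G x).inverse.comp (B x - G x) : E n →L[ℝ] E n) : E n →ₗ[ℝ] E n) =
      (((G x).inverse.comp (B x) : E n →L[ℝ] E n) : E n →ₗ[ℝ] E n) - LinearMap.id := by
    rw [h2]; rfl
  show Real.sqrt (G x).det * LinearMap.trace ℝ (E n) _ = _
  rw [h3, map_sub, LinearMap.trace_id]
  simp only [finrank_euclideanSpace, Fintype.card_fin]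
  ring

lemma polarize {A C : E n →L[ℝ] E n} (hA : ∀ u v, ⟪A u, v⟫ = ⟪A v, u⟫)
    (hC : ∀ u v, ⟪C u, v⟫ = ⟪C v, u⟫) (h : ∀ v, ⟪A v, v⟫ = ⟪C v, v⟫) (u v : E n) :
    ⟪A u, v⟫ = ⟪C u, v⟫ := by
  have h1 := h (u + v)
  simp only [map_add, inner_add_left, inner_add_right] at h1
  have h2 := hA u v
  have h3 := hC u v
  have h4 := h u
  have h5 := h v
  linarith

/-- `J`-average `½ (b + J^* b)` of a bilinear form field `b(u, v) = ⟪B x u, v⟫`. -/
def javg (J B : E n → E n →L[ℝ] E n) (x : E n) : E n →L[ℝ] E n :=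
  (1 / 2 : ℝ) • (B x + (ContinuousLinearMap.adjoint (J x)).comp ((B x).comp (J x)))

lemma javg_inner (J B : E n → E n →L[ℝ] E n) (x u v : E n) :
    ⟪javg J B x u, v⟫ = 1 / 2 * (⟪B x u, v⟫ + ⟪B x (J x u), J x v⟫) := by
  simp only [javg, _root_.smul_apply, _root_.add_apply, ContinuousLinearMap.comp_apply,
    inner_smul_left, inner_add_left, ContinuousLinearMap.adjoint_inner_left, conj_trivial]

lemma javg_smooth {J B : E n → E n →L[ℝ] E n} (hJ : ContDiff ℝ ∞ J) (hB : ContDiff ℝ ∞ B) :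
    ContDiff ℝ ∞ (javg J B) := by
  have h2 : ContDiff ℝ ∞ fun x => adjL n (J x) := (adjL n).contDiff.comp hJ
  have h3 : ContDiff ℝ ∞ fun x => (adjL n (J x)).comp ((B x).comp (J x)) :=
    h2.clm_comp (hB.clm_comp hJ)
  exact (hB.add h3).const_smul (1 / 2 : ℝ)

lemma trace_javg {G J : E n → E n →L[ℝ] E n} (h : IsAlmostKahler G J)
    (B : E n → E n →L[ℝ] E n) {x : E n} (hx : x ∈ M n) :
    LinearMap.trace ℝ (E n)
      (((G x).inverse.comp (javg J B x - G x) : E n →L[ℝ] E n) : E n →ₗ[ℝ] E n) =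
    LinearMap.trace ℝ (E n)
      (((G x).inverse.comp (B x - G x) : E n →L[ℝ] E n) : E n →ₗ[ℝ] E n) := by
  set K := (G x).inverse with hK
  set A := ContinuousLinearMap.adjoint (J x) with hA
  have hKG : ∀ v, K (G x v) = v := h.metric.inv_apply hx
  have hGK : ∀ v, G x (K v) = v := h.metric.apply_inv hx
  -- `K Jᵀ = - J K`
  have hKA : ∀ v, K (A v) = -(J x (K v)) := by
    intro v
    have h1 : A v = -(G x (J x (K v))) := by
      apply ext_inner_right ℝ
      intro w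
      rw [hA, ContinuousLinearMap.adjoint_inner_left, inner_neg_left]
      have h2 := h.inv x hx (K v) (J x w)
      rw [h.sq x hx w, hGK, inner_neg_right] at h2
      linarith
    rw [h1, map_neg, hKG]
  have hC : ((K.comp (javg J B x - G x) : E n →L[ℝ] E n) : E n →ₗ[ℝ] E n) =
      (1 / 2 : ℝ) • ((K.comp (B x - G x) : E n →L[ℝ] E n) : E n →ₗ[ℝ] E n) +
      (1 / 2 : ℝ) • (-((J x : E n →ₗ[ℝ] E n) * ((K.comp ((B x - G x).comp (J x)) :
        E n →L[ℝ] E n) : E n →ₗ[ℝ] E n))) := by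
    apply LinearMap.ext
    intro v
    show K ((javg J B x - G x) v) = (1 / 2 : ℝ) • K ((B x - G x) v) +
      (1 / 2 : ℝ) • (-(J x (K ((B x - G x) (J x v)))))
    have h3 : (javg J B x - G x) v = (1 / 2 : ℝ) • ((B x - G x) v) +
        (1 / 2 : ℝ) • A ((B x - G x) (J x v)) := by
      have h4 : A (G x (J x v)) = G x v := by
        apply ext_inner_right ℝ
        intro w
        rw [hA, ContinuousLinearMap.adjoint_inner_left]
        exact h.inv x hx v w
      have h5 : G x v = (1 / 2 : ℝ) • G x v + (1 / 2 : ℝ) • A (G x (J x v)) := by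
        rw [h4, ← add_smul]; norm_num
      simp only [_root_.sub_apply, map_sub, javg, _root_.smul_apply, _root_.add_apply,
        ContinuousLinearMap.comp_apply]
      rw [← hA]
      conv_lhs => rw [h5]
      module
    rw [h3, map_add, map_smul, map_smul, hKA]
  have hJJ : (J x : E n →ₗ[ℝ] E n) * (J x : E n →ₗ[ℝ] E n) = -1 := by
    apply LinearMap.ext
    intro v
    show J x (J x v) = -v
    exact h.sq x hx v
  have hD : LinearMap.trace ℝ (E n) ((J x : E n →ₗ[ℝ] E n) *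
      ((K.comp ((B x - G x).comp (J x)) : E n →L[ℝ] E n) : E n →ₗ[ℝ] E n)) =
      - LinearMap.trace ℝ (E n) ((K.comp (B x - G x) : E n →L[ℝ] E n) : E n →ₗ[ℝ] E n) := by
    have h6 : ((K.comp ((B x - G x).comp (J x)) : E n →L[ℝ] E n) : E n →ₗ[ℝ] E n) =
        ((K.comp (B x - G x) : E n →L[ℝ] E n) : E n →ₗ[ℝ] E n) * (J x : E n →ₗ[ℝ] E n) := rfl
    rw [h6, LinearMap.trace_mul_comm, mul_assoc, hJJ, mul_neg_one, map_neg]
  rw [hC, map_add, map_smul, map_smul, map_neg, hD]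
  simp only [neg_neg, smul_eq_mul]
  ring

/-- Main theorem. -/
theorem main (n : ℕ) (G₁ G₂ : E n → E n →L[ℝ] E n)
    (hG₁ : IsMetric G₁) (hG₂ : IsMetric G₂) (hexp : ∀ x ∈ M n, ExpDiffeo G₁ x)
    (ψ : E n → E n) (hψ : ContDiff ℝ ∞ ψ) (hψM : MapsTo ψ (M n) (M n))
    (hψb : ∀ x ∈ bM n, ψ x = x)
    (hd : ∀ a ∈ bM n, ∀ b ∈ bM n, rdist G₁ a b ≤ rdist G₂ a b) :
    -- (I) energy rigidity
    (n * vol G₁ ≤ trInt G₁ (pb ψ G₂) ∧
      (trInt G₁ (pb ψ G₂) = n * vol G₁ →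
        ∀ x ∈ M n, ∀ u v, ⟪G₂ (ψ x) (fderiv ℝ ψ x u), fderiv ℝ ψ x v⟫ = ⟪G₁ x u, v⟫)) ∧
    -- (II) almost Kähler rigidity
    (3 ≤ n → ∀ J₁ J₂ : E n → E n →L[ℝ] E n, IsAlmostKahler G₁ J₁ → IsAlmostKahler G₂ J₂ →
      (∀ x ∈ M n, ∀ v, fderiv ℝ ψ x (J₁ x v) = J₂ (ψ x) (fderiv ℝ ψ x v)) →
      (∀ a ∈ bM n, ∀ ε > 0, ∃ δ > 0, ∀ b ∈ bM n, ‖b - a‖ < δ →
        rdist G₂ a b ≤ rdist G₁ a b + ε * ‖b - a‖) →
      ∀ x ∈ M n, ∀ u v, ⟪G₂ (ψ x) (fderiv ℝ ψ x u), fderiv ℝ ψ x v⟫ = ⟪G₁ x u, v⟫) ∧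
    -- (III) only the `J`-invariant part of the second metric is almost Kähler
    (3 ≤ n → ∀ J : E n → E n →L[ℝ] E n, IsAlmostKahler G₁ J →
      (∀ x ∈ M n, ∀ u v w,
        ⟪fderiv ℝ (fun y => (javg J (pb ψ G₂) y).comp (J y)) x u v, w⟫ +
        ⟪fderiv ℝ (fun y => (javg J (pb ψ G₂) y).comp (J y)) x v w, u⟫ +
        ⟪fderiv ℝ (fun y => (javg J (pb ψ G₂) y).comp (J y)) x w u, v⟫ = 0) →
      (∀ x ∈ bM n, javg J (pb ψ G₂) x = G₁ x) →
      ∀ x ∈ M n, ∀ u v, ⟪G₂ (ψ x) (fderiv ℝ ψ x u), fderiv ℝ ψ x v⟫ = ⟪G₁ x u, v⟫) := by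
  have hBc := pb_continuous ψ hψ hG₂.smooth.continuous
  have hen := energy hG₁ hexp hG₂ ψ hψ hψM hψb hd
  rw [trInt_sub hG₁ hBc] at hen
  have hBs : ∀ x ∈ M n, ∀ u v, ⟪pb ψ G₂ x u, v⟫ = ⟪pb ψ G₂ x v, u⟫ := by
    intro x hx u v
    rw [pb_inner, pb_inner]
    exact hG₂.symm _ (hψM hx) _ _
  have hfin : trInt G₁ (pb ψ G₂) - n * vol G₁ ≤ 0 →
      ∀ x ∈ M n, ∀ u v, ⟪G₂ (ψ x) (fderiv ℝ ψ x u), fderiv ℝ ψ x v⟫ = ⟪G₁ x u, v⟫ := by
    intro h x hx u v
    rw [← pb_inner]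
    exact polarize (hBs x hx) (hG₁.symm x hx) (hen.2 h x hx) u v
  refine ⟨⟨by linarith [hen.1], fun h => hfin (by rw [h, sub_self])⟩, ?_, ?_⟩
  · intro hn J₁ J₂ hK₁ hK₂ hol hd'
    apply hfin
    have hBJ := pb_inv ψ hψM G₂ J₁ J₂ hK₂ hol
    have hbd := boundary_eq G₁ G₂ J₁ hK₁ hG₂ ψ hψ hψb hBJ hd hd'
    have h1 := trace_identity hn G₁ J₁ (pb ψ G₂) hK₁ (pb_smooth ψ hψ G₂ hG₂.smooth) hBs hBJ
      (pb_closed ψ hψ hψM G₂ J₁ J₂ hK₁.smoothJ hK₂ hol) hbd
    rw [trInt_sub hG₁ hBc] at h1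
    exact h1.le
  · intro hn J hK hcl hbd
    apply hfin
    have h1 := trace_identity hn G₁ J (javg J (pb ψ G₂)) hK
      (javg_smooth hK.smoothJ (pb_smooth ψ hψ G₂ hG₂.smooth))
      (by
        intro x hx u v
        rw [javg_inner, javg_inner, hBs x hx u v, hBs x hx (J x u) (J x v)])
      (by
        intro x hx u v
        rw [javg_inner, javg_inner, hK.sq x hx, hK.sq x hx]
        simp only [map_neg, inner_neg_left, inner_neg_right, neg_neg]
        ring)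
      hcl hbd
    have h2 : (∫ x in M n, Real.sqrt (G₁ x).det * LinearMap.trace ℝ (E n)
        (((G₁ x).inverse.comp (javg J (pb ψ G₂) x - G₁ x) : E n →L[ℝ] E n) :
          E n →ₗ[ℝ] E n)) =
        ∫ x in M n, Real.sqrt (G₁ x).det * LinearMap.trace ℝ (E n)
        (((G₁ x).inverse.comp (pb ψ G₂ x - G₁ x) : E n →L[ℝ] E n) : E n →ₗ[ℝ] E n) := by
      apply setIntegral_congr_fun Metric.isClosed_closedBall.measurableSet
      intro x hx
      show _ * _ = _ * _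
      rw [trace_javg hK (pb ψ G₂) hx]
    rw [h2, trInt_sub hG₁ hBc] at h1
    exact h1.le

end KBR
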