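import Pool.Agent.helper21.KBR.Speed

/-!
Gauss lemma for a point where `exp` is a diffeomorphism.
-/

noncomputable section

namespace KBR

open Set MeasureTheory Filter Topology
open scoped ContDiff RealInnerProductSpace

variable {n : ℕ} {G : E n → E n →L[ℝ] E n} {x : E n} {e L : E n → E n}

/-- points on the geodesic with initial velocity `w` -/
lemma ray_eq (h1 : ∀ c v, IsGeod G 1 c v → c 0 = x → c 1 = e (v 0)) {c v : ℝ → E n}
    (h : IsGeod G 1 c v) (h0 : c 0 = x) {t : ℝ} (ht : t ∈ Icc (0 : ℝ) 1) :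
    t • v 0 ∈ expDom G x ∧ c t = e (t • v 0) := by
  have h2 := h.rescale (a := t) (T' := 1) ht.1 (by simpa using ht.2)
  have h3 := h1 _ _ h2 (by simpa using h0)
  simp only [mul_one, mul_zero] at h3
  exact ⟨⟨_, _, h2, by simpa using h0, by simp⟩, h3⟩

/-- half the squared distance function -/
def Sf (G : E n → E n →L[ℝ] E n) (x : E n) (L : E n → E n) (y : E n) : ℝ :=
  1 / 2 * ⟪G x (L y), L y⟫

lemma Sf_contDiffOn (hL : ContDiffOn ℝ ∞ L (M n)) : ContDiffOn ℝ ∞ (Sf G x L) (M n) := by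
  unfold Sf
  exact contDiffOn_const.mul (((G x).contDiff.comp_contDiffOn hL).inner ℝ hL)

lemma ball_subset_M : Metric.ball (0 : E n) 1 ⊆ M n := Metric.ball_subset_closedBall

lemma M_mem_nhds {y : E n} (hy : y ∈ Metric.ball (0 : E n) 1) : M n ∈ 𝓝 y :=
  mem_of_superset (Metric.isOpen_ball.mem_nhds hy) ball_subset_M

/-- Gauss lemma / first variation formula at interior points -/
theorem gauss (hG : IsMetric G)
    (h1 : ∀ c v, IsGeod G 1 c v → c 0 = x → c 1 = e (v 0))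
    (he : ContDiffOn ℝ ∞ e (expDom G x)) (hL : ContDiffOn ℝ ∞ L (M n))
    (h2 : ∀ y ∈ M n, L y ∈ expDom G x ∧ e (L y) = y)
    {y : E n} (hy : y ∈ Metric.ball (0 : E n) 1) {c v : ℝ → E n} (h : IsGeod G 1 c v)
    (h0 : c 0 = x) (hv0 : v 0 = L y) (u : E n) :
    fderiv ℝ (Sf G x L) y u = ⟪G y (v 1), u⟫ := by
  -- a small interval
  obtain ⟨δ, hδ, hball⟩ : ∃ δ : ℝ, 0 < δ ∧ ∀ s ∈ Ioo (-δ) δ, y + s • u ∈ Metric.ball (0 : E n) 1 := by
    have hc : ContinuousAt (fun s : ℝ => y + s • u) 0 := by fun_prop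
    have := hc.preimage_mem_nhds (t := Metric.ball (0 : E n) 1)
      (by simpa using Metric.isOpen_ball.mem_nhds hy)
    obtain ⟨δ, hδ, hs⟩ := Metric.mem_nhds_iff.mp this
    exact ⟨δ, hδ, fun s hs' => hs (by simpa [Real.dist_eq, abs_lt] using hs')⟩
  set S : Set (ℝ × ℝ) := Ioo (-δ) δ ×ˢ Icc (0 : ℝ) 1 with hS
  set Γ : ℝ × ℝ → E n := fun q => e (q.2 • L (y + q.1 • u)) with hΓ
  -- geodesics
  have hgeo : ∀ s ∈ Ioo (-δ) δ, ∃ c v, IsGeod G 1 c v ∧ c 0 = x ∧ v 0 = L (y + s • u) ∧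
      ∀ t ∈ Icc (0 : ℝ) 1, c t = Γ (s, t) := by
    intro s hs
    obtain ⟨⟨c, v, hg, hc0, hv0⟩, -⟩ := h2 _ (ball_subset_M (hball s hs))
    refine ⟨c, v, hg, hc0, hv0, fun t ht => ?_⟩
    rw [(ray_eq h1 hg hc0 ht).2, hv0]
  have hmaps : MapsTo (fun q : ℝ × ℝ => q.2 • L (y + q.1 • u)) S (expDom G x) := by
    rintro ⟨s, t⟩ ⟨hs, ht⟩
    obtain ⟨c, v, hg, hc0, hv0, -⟩ := hgeo s hs
    have := (ray_eq h1 hg hc0 ht).1
    rwa [hv0] at this
  have hΓs : ContDiffOn ℝ ∞ Γ S := by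
    refine he.comp ?_ hmaps
    refine contDiff_snd.contDiffOn.smul (hL.comp ?_ ?_)
    · exact (contDiff_const.add (contDiff_fst.smul contDiff_const)).contDiffOn
    · rintro ⟨s, t⟩ ⟨hs, -⟩
      exact ball_subset_M (hball s hs)
  have hUS : UniqueDiffOn ℝ S := isOpen_Ioo.uniqueDiffOn.prod (uniqueDiffOn_Icc one_pos)
  set Γ' : ℝ × ℝ → (ℝ × ℝ →L[ℝ] E n) := fderivWithin ℝ Γ S with hΓ'
  have hΓ'c : ContinuousOn Γ' S := hΓs.continuousOn_fderivWithin hUS (by simp)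
  have hΓd : ∀ q ∈ S, HasFDerivWithinAt Γ (Γ' q) S q := fun q hq =>
    ((hΓs.differentiableOn (by simp)) q hq).hasFDerivWithinAt
  -- velocity
  have hV : ∀ s ∈ Ioo (-δ) δ, ∀ t ∈ Icc (0 : ℝ) 1, ∀ c v, IsGeod G 1 c v → c 0 = x →
      v 0 = L (y + s • u) → v t = Γ' (s, t) (0, 1) := by
    intro s hs t ht c v hg hc0 hv0
    have hm : MapsTo (fun t' : ℝ => (s, t')) (Icc 0 1) S := fun t' ht' => ⟨hs, ht'⟩
    have hd : HasDerivWithinAt (fun t' : ℝ => (s, t')) ((0 : ℝ), (1 : ℝ)) (Icc 0 1) t :=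
      (hasDerivWithinAt_const t (Icc 0 1) s).prodMk (hasDerivWithinAt_id t _)
    have h3 : HasDerivWithinAt (fun t' => Γ (s, t')) (Γ' (s, t) (0, 1)) (Icc 0 1) t :=
      (hΓd (s, t) ⟨hs, ht⟩).comp_hasDerivWithinAt t hd hm
    have h4 : HasDerivWithinAt (fun t' => Γ (s, t')) (v t) (Icc 0 1) t := by
      refine (hg.vel t ht).congr (fun t' ht' => ?_) ?_
      · rw [(ray_eq h1 hg hc0 ht').2, hv0]
      · rw [(ray_eq h1 hg hc0 ht).2, hv0]
    exact (uniqueDiffOn_Icc one_pos t ht).eq_deriv _ h4 h3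
  have h0mem : (0 : ℝ) ∈ Ioo (-δ) δ := ⟨by linarith, hδ⟩
  have hy0 : y + (0 : ℝ) • u = y := by simp
  have hv0' : v 0 = L (y + (0 : ℝ) • u) := by rw [hy0, hv0]
  have hcΓ : ∀ t ∈ Icc (0 : ℝ) 1, c t = Γ (0, t) := by
    intro t ht
    rw [(ray_eq h1 h h0 ht).2, hv0']
  -- the function P
  set Z : ℝ → E n := fun t => Γ' (0, t) (1, 0) with hZ
  set P : ℝ → ℝ := fun t => ⟪G (c t) (v t), Z t⟫ with hP
  have hZc : ContinuousOn Z (Icc 0 1) := by
    have : ContinuousOn (fun t : ℝ => Γ' (0, t)) (Icc 0 1) :=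
      hΓ'c.comp (by fun_prop) (fun t ht => ⟨h0mem, ht⟩)
    exact this.clm_apply continuousOn_const
  have hPc : ContinuousOn P (Icc 0 1) := by
    have hmc : ContinuousOn (fun t => G (c t) (v t)) (Icc 0 1) := by
      intro t ht
      obtain ⟨q, -, hq⟩ := h.mom_deriv ht
      exact hq.continuousWithinAt
    exact hmc.inner hZc
  -- derivative of P in the interior
  have hPd : ∀ t ∈ Ioo (0 : ℝ) 1, HasDerivAt P (fderiv ℝ (Sf G x L) y u) t := by
    intro t ht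
    have htI : t ∈ Icc (0 : ℝ) 1 := ⟨ht.1.le, ht.2.le⟩
    have hSn : S ∈ 𝓝 ((0 : ℝ), t) := prod_mem_nhds (isOpen_Ioo.mem_nhds h0mem) (Icc_mem_nhds ht.1 ht.2)
    have hΓat : ContDiffAt ℝ ∞ Γ (0, t) := hΓs.contDiffAt hSn
    have hev : ∀ᶠ q in 𝓝 ((0 : ℝ), t), Γ' q = fderiv ℝ Γ q := by
      filter_upwards [eventually_mem_nhds_iff.mpr hSn] with q hq
      exact fderivWithin_of_mem_nhds hq
    set A := fderiv ℝ (fderiv ℝ Γ) (0, t) with hA
    have hsymm : A (0, 1) (1, 0) = A (1, 0) (0, 1) :=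
      (hΓat.isSymmSndFDerivAt (by rw [minSmoothness_of_isRCLikeNormedField]; exact WithTop.coe_le_coe.mpr (le_top : (2 : ℕ∞) ≤ ⊤))) (0, 1) (1, 0)
    have hAd : HasFDerivAt Γ' A (0, t) := by
      have h3 : HasFDerivAt (fderiv ℝ Γ) A (0, t) := by
        have h4 : ContDiffAt ℝ 1 (fderiv ℝ Γ) (0, t) := hΓat.fderiv_right (by norm_cast)
        exact (h4.differentiableAt (by simp)).hasFDerivAt
      exact h3.congr_of_eventuallyEq hev
    obtain ⟨q, hqw, hq⟩ := h.mom_deriv htI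
    have hq' : HasDerivAt (fun s => G (c s) (v s)) q t := hq.hasDerivAt (Icc_mem_nhds ht.1 ht.2)
    have hd2 : HasDerivAt (fun t' : ℝ => ((0 : ℝ), t')) ((0 : ℝ), (1 : ℝ)) t :=
      (hasDerivAt_const t (0 : ℝ)).prodMk (hasDerivAt_id t)
    have hd1 : HasDerivAt (fun s : ℝ => (s, t)) ((1 : ℝ), (0 : ℝ)) 0 :=
      (hasDerivAt_id (0 : ℝ)).prodMk (hasDerivAt_const 0 t)
    have hZd : HasDerivAt Z (A (0, 1) (1, 0)) t := by
      have h3 : HasDerivAt (fun t' : ℝ => Γ' (0, t')) (A (0, 1)) t := hAd.comp_hasDerivAt t hd2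
      have h4 := h3.clm_apply (hasDerivAt_const t ((1 : ℝ), (0 : ℝ)))
      simpa using h4
    have hPd := HasDerivAt.inner ℝ hq' hZd
    -- differentiate the constant speed identity in the direction s
    have hVd : HasDerivAt (fun s : ℝ => Γ' (s, t) (0, 1)) (A (1, 0) (0, 1)) 0 := by
      have h3 : HasDerivAt (fun s : ℝ => Γ' (s, t)) (A (1, 0)) 0 := hAd.comp_hasDerivAt (0 : ℝ) hd1
      have h4 := h3.clm_apply (hasDerivAt_const (0 : ℝ) ((0 : ℝ), (1 : ℝ)))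
      simpa using h4
    have hΓs1 : HasDerivAt (fun s : ℝ => Γ (s, t)) (Z t) 0 := by
      have h3 : HasFDerivAt Γ (Γ' (0, t)) (0, t) := (hΓd (0, t) ⟨h0mem, htI⟩).hasFDerivAt hSn
      exact h3.comp_hasDerivAt (0 : ℝ) hd1
    have hGd : HasDerivAt (fun s : ℝ => G (Γ (s, t))) (fderiv ℝ G (c t) (Z t)) 0 := by
      have h3 : HasFDerivAt G (fderiv ℝ G (Γ (0, t))) (Γ (0, t)) :=
        (hG.smooth.differentiable (by simp)).differentiableAt.hasFDerivAt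
      have h4 := h3.comp_hasDerivAt (0 : ℝ) hΓs1
      rw [← hcΓ t htI] at h4
      exact h4
    have hGV := hGd.clm_apply hVd
    have hE := HasDerivAt.inner ℝ hGV hVd
    have hSd : HasDerivAt (fun s : ℝ => 2 * Sf G x L (y + s • u))
        (2 * fderiv ℝ (Sf G x L) y u) 0 := by
      have h3 : HasFDerivAt (Sf G x L) (fderiv ℝ (Sf G x L) y) y :=
        (((Sf_contDiffOn hL).contDiffAt (M_mem_nhds hy)).differentiableAt (by simp)).hasFDerivAt
      have h3' : HasFDerivAt (Sf G x L) (fderiv ℝ (Sf G x L) y) (y + (0 : ℝ) • u) := by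
        rw [hy0]; exact h3
      have h4 : HasDerivAt (fun s : ℝ => y + s • u) u 0 := by
        simpa using ((hasDerivAt_id (0 : ℝ)).smul_const u).const_add y
      exact (h3'.comp_hasDerivAt (0 : ℝ) h4).const_mul 2
    have hcongr : (fun s : ℝ => 2 * Sf G x L (y + s • u)) =ᶠ[𝓝 0]
        fun s : ℝ => ⟪G (Γ (s, t)) (Γ' (s, t) (0, 1)), Γ' (s, t) (0, 1)⟫ := by
      filter_upwards [isOpen_Ioo.mem_nhds h0mem] with s hs
      obtain ⟨c', v', hg, hc0, hv0'', hcs⟩ := hgeo s hs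
      have h3 := geod_speed G hG 1 c' v' hg t htI
      have h4 : nrm G (c' t) (v' t) ^ 2 = nrm G (c' 0) (v' 0) ^ 2 := by rw [h3]
      rw [hG.nrm_sq (hg.mem t htI), hG.nrm_sq (hg.mem 0 ⟨le_refl _, zero_le_one⟩),
        hV s hs t htI c' v' hg hc0 hv0'', hcs t htI, hc0, hv0''] at h4
      rw [h4]
      unfold Sf
      ring
    have huniq := (hE.congr_of_eventuallyEq hcongr).unique hSd
    have hV0 : Γ' (0, t) (0, 1) = v t := (hV 0 h0mem t htI c v h h0 hv0').symm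
    have hG0 : G (Γ (0, t)) = G (c t) := by rw [hcΓ t htI]
    refine hPd.congr_deriv ?_
    simp only [hV0, hG0, inner_add_left] at huniq
    rw [hsymm, hqw]
    have hsy := hG.symm (c t) (h.mem t htI) (A (1, 0) (0, 1)) (v t)
    rw [hsy] at huniq
    linarith
  -- endpoints
  have hZ0 : Z 0 = 0 := by
    have hm : MapsTo (fun s : ℝ => (s, (0 : ℝ))) (Ioo (-δ) δ) S := fun s hs =>
      ⟨hs, ⟨le_refl _, zero_le_one⟩⟩
    have hd : HasDerivWithinAt (fun s : ℝ => (s, (0 : ℝ))) ((1 : ℝ), (0 : ℝ)) (Ioo (-δ) δ) 0 :=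
      (hasDerivWithinAt_id 0 _).prodMk (hasDerivWithinAt_const 0 _ (0 : ℝ))
    have h3' : HasFDerivWithinAt Γ (Γ' (0, 0)) S ((fun s : ℝ => (s, (0 : ℝ))) 0) :=
      hΓd (0, 0) ⟨h0mem, ⟨le_refl _, zero_le_one⟩⟩
    have h3 : HasDerivWithinAt (fun s : ℝ => Γ (s, 0)) (Z 0) (Ioo (-δ) δ) 0 :=
      HasFDerivWithinAt.comp_hasDerivWithinAt (f := fun s : ℝ => (s, (0 : ℝ))) (0 : ℝ) h3' hd hm
    have h4 : (fun s : ℝ => Γ (s, 0)) = fun _ => e 0 := by
      funext s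
      simp [hΓ]
    rw [h4] at h3
    exact ((isOpen_Ioo.uniqueDiffOn 0 h0mem).eq_deriv _ h3 (hasDerivWithinAt_const 0 _ _))
  have hZ1 : Z 1 = u := by
    have hm : MapsTo (fun s : ℝ => (s, (1 : ℝ))) (Ioo (-δ) δ) S := fun s hs =>
      ⟨hs, ⟨zero_le_one, le_refl _⟩⟩
    have hd : HasDerivWithinAt (fun s : ℝ => (s, (1 : ℝ))) ((1 : ℝ), (0 : ℝ)) (Ioo (-δ) δ) 0 :=
      (hasDerivWithinAt_id 0 _).prodMk (hasDerivWithinAt_const 0 _ (1 : ℝ))
    have h3' : HasFDerivWithinAt Γ (Γ' (0, 1)) S ((fun s : ℝ => (s, (1 : ℝ))) 0) :=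
      hΓd (0, 1) ⟨h0mem, ⟨zero_le_one, le_refl _⟩⟩
    have h3 : HasDerivWithinAt (fun s : ℝ => Γ (s, 1)) (Z 1) (Ioo (-δ) δ) 0 :=
      HasFDerivWithinAt.comp_hasDerivWithinAt (f := fun s : ℝ => (s, (1 : ℝ))) (0 : ℝ) h3' hd hm
    have h4 : HasDerivWithinAt (fun s : ℝ => Γ (s, 1)) u (Ioo (-δ) δ) 0 := by
      have h5 : HasDerivWithinAt (fun s : ℝ => y + s • u) u (Ioo (-δ) δ) 0 := by
        have : HasDerivAt (fun s : ℝ => y + s • u) u 0 := by
          simpa using ((hasDerivAt_id (0 : ℝ)).smul_const u).const_add y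
        exact this.hasDerivWithinAt
      refine h5.congr (fun s hs => ?_) ?_
      · simp only [hΓ, one_smul]
        exact (h2 _ (ball_subset_M (hball s hs))).2
      · simp only [hΓ, one_smul]
        exact (h2 _ (ball_subset_M (hball 0 h0mem))).2
    exact ((isOpen_Ioo.uniqueDiffOn 0 h0mem).eq_deriv _ h3 h4)
  -- mean value theorem
  obtain ⟨t, ht, hMVT⟩ := exists_hasDerivAt_eq_slope P (fun _ => fderiv ℝ (Sf G x L) y u)
    one_pos hPc hPd
  have hc1 : c 1 = y := by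
    rw [hcΓ 1 ⟨zero_le_one, le_refl _⟩]
    simp only [hΓ, one_smul]
    rw [(h2 _ (ball_subset_M (hball 0 h0mem))).2, hy0]
  simp only [hP, hZ0, hZ1, inner_zero_right, sub_zero, div_one, hc1] at hMVT
  exact hMVT

end KBR
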