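import Pool.Agent.helper21.KBR.Gauss
import Pool.Agent.helper63.KBR.RdistBoundary

/-!
Geodesics starting at a point where `exp` is a diffeomorphism are minimizing.
-/

noncomputable section

namespace KBR

open Set MeasureTheory Filter Topology
open scoped ContDiff RealInnerProductSpace

variable {n : ℕ} {G : E n → E n →L[ℝ] E n} {x : E n} {e L : E n → E n}

lemma uniqueDiffOn_M : UniqueDiffOn ℝ (M n) :=
  uniqueDiffOn_convex (convex_closedBall (0 : E n) 1) (by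
    rw [M, interior_closedBall (0 : E n) one_ne_zero]
    exact ⟨0, by simp⟩)

lemma Sf_grad_ball (hG : IsMetric G)
    (h1 : ∀ c v, IsGeod G 1 c v → c 0 = x → c 1 = e (v 0))
    (he : ContDiffOn ℝ ∞ e (expDom G x)) (hL : ContDiffOn ℝ ∞ L (M n))
    (h2 : ∀ y ∈ M n, L y ∈ expDom G x ∧ e (L y) = y)
    {y : E n} (hy : y ∈ Metric.ball (0 : E n) 1) (u : E n) :
    |fderivWithin ℝ (Sf G x L) (M n) y u| ≤ nrm G x (L y) * nrm G y u := by
  rw [fderivWithin_of_mem_nhds (M_mem_nhds hy)]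
  obtain ⟨⟨c, v, hg, hc0, hv0⟩, hey⟩ := h2 y (ball_subset_M hy)
  rw [gauss hG h1 he hL h2 hy hg hc0 hv0 u]
  have hc1 : c 1 = y := by
    rw [h1 c v hg hc0, hv0, hey]
  have h3 := geod_speed G hG 1 c v hg 1 ⟨zero_le_one, le_refl _⟩
  rw [hc1, hc0, hv0] at h3
  rw [← h3]
  exact hG.cs (ball_subset_M hy) _ _

lemma Sf_grad (hG : IsMetric G)
    (h1 : ∀ c v, IsGeod G 1 c v → c 0 = x → c 1 = e (v 0))
    (he : ContDiffOn ℝ ∞ e (expDom G x)) (hL : ContDiffOn ℝ ∞ L (M n))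
    (h2 : ∀ y ∈ M n, L y ∈ expDom G x ∧ e (L y) = y)
    {y : E n} (hy : y ∈ M n) (u : E n) :
    |fderivWithin ℝ (Sf G x L) (M n) y u| ≤ nrm G x (L y) * nrm G y u := by
  -- approximate `y` by interior points `s • y`, `s ↑ 1`
  have hyn : ‖y‖ ≤ 1 := by simpa [M] using hy
  have hmaps : ∀ s ∈ Ico (0 : ℝ) 1, s • y ∈ Metric.ball (0 : E n) 1 := by
    intro s hs
    rw [mem_ball_zero_iff, norm_smul, Real.norm_of_nonneg hs.1]
    calc s * ‖y‖ ≤ s * 1 := mul_le_mul_of_nonneg_left hyn hs.1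
      _ < 1 := by linarith [hs.2]
  have hcont : ContinuousOn (fun s : ℝ => s • y) (Icc 0 1) := by fun_prop
  have hmapsM : MapsTo (fun s : ℝ => s • y) (Icc 0 1) (M n) := by
    intro s hs
    rw [M, mem_closedBall_zero_iff, norm_smul, Real.norm_of_nonneg hs.1]
    exact mul_le_one₀ hs.2 (norm_nonneg _) hyn
  have hF : ContinuousOn (fun z => |fderivWithin ℝ (Sf G x L) (M n) z u|) (M n) :=
    (((Sf_contDiffOn (G := G) (x := x) hL).continuousOn_fderivWithin uniqueDiffOn_M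
      (by simp)).clm_apply continuousOn_const).abs
  have hR : ContinuousOn (fun z => nrm G x (L z) * nrm G z u) (M n) := by
    have hGc := hG.smooth.continuous
    have h3 : ContinuousOn (fun z => nrm G x (L z)) (M n) :=
      (RB.nrm_cont G hGc).comp_continuousOn (continuousOn_const.prodMk hL.continuousOn)
    have h4 : Continuous (fun z => nrm G z u) :=
      (RB.nrm_cont G hGc).comp (continuous_id.prodMk continuous_const)
    exact h3.mul h4.continuousOn
  have hF1 := hF.comp hcont hmapsM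
  have hR1 := hR.comp hcont hmapsM
  have h1mem : (1 : ℝ) ∈ Icc (0 : ℝ) 1 := ⟨zero_le_one, le_refl _⟩
  have tF := (hF1 1 h1mem).tendsto.mono_left (nhdsWithin_mono _ (Ico_subset_Icc_self : Ico (0 : ℝ) 1 ⊆ Icc 0 1))
  have tR := (hR1 1 h1mem).tendsto.mono_left (nhdsWithin_mono _ (Ico_subset_Icc_self : Ico (0 : ℝ) 1 ⊆ Icc 0 1))
  haveI : NeBot (𝓝[Ico (0 : ℝ) 1] 1) := by
    rw [← mem_closure_iff_nhdsWithin_neBot, closure_Ico (by norm_num)]
    exact h1mem
  have h5 := le_of_tendsto_of_tendsto tF tR (by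
    filter_upwards [self_mem_nhdsWithin] with s hs
    exact Sf_grad_ball hG h1 he hL h2 (hmaps s hs) u)
  simpa using h5

theorem path_lower (hG : IsMetric G) (hx : x ∈ M n)
    (h1 : ∀ c v, IsGeod G 1 c v → c 0 = x → c 1 = e (v 0))
    (he : ContDiffOn ℝ ∞ e (expDom G x)) (hL : ContDiffOn ℝ ∞ L (M n))
    (h2 : ∀ y ∈ M n, L y ∈ expDom G x ∧ e (L y) = y)
    (h3 : ∀ w ∈ expDom G x, L (e w) = w)
    {y : E n} {γ : ℝ → E n} (hγ : IsPath γ x y) : nrm G x (L y) ≤ len G γ := by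
  -- `L x = 0`
  have hLx : L x = 0 := by
    have hg : IsGeod G 1 (fun _ => x) (fun _ => 0) := by
      refine ⟨fun _ _ => hx, fun t _ => hasDerivWithinAt_const _ _ _, fun t _ w => ?_⟩
      simpa using hasDerivWithinAt_const t (Icc 0 1) (0 : ℝ)
    have h4 := h1 _ _ hg rfl
    have h5 : (0 : E n) ∈ expDom G x := ⟨_, _, hg, rfl, rfl⟩
    rw [h4]
    exact h3 0 h5
  have hSnn : ∀ z, 0 ≤ Sf G x L z := fun z =>
    mul_nonneg (by norm_num) (hG.nonneg hx _)
  have hnS : ∀ z, nrm G x (L z) = Real.sqrt (2 * Sf G x L z) := by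
    intro z
    unfold nrm Sf
    congr 1
    ring
  apply le_of_forall_pos_le_add
  intro δ hδ
  set f : ℝ → ℝ := fun t => Real.sqrt (2 * Sf G x L (γ t) + δ ^ 2) with hf
  set γ' : ℝ → E n := derivWithin γ (Icc 0 1) with hγ'
  have hpos : ∀ z, 0 < 2 * Sf G x L z + δ ^ 2 := fun z => by
    have := hSnn z
    positivity
  have hfd : ∀ t ∈ Icc (0 : ℝ) 1, HasDerivWithinAt f
      ((2 * fderivWithin ℝ (Sf G x L) (M n) (γ t) (γ' t)) / (2 * f t)) (Icc 0 1) t := by
    intro t ht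
    have h4 : HasFDerivWithinAt (Sf G x L) (fderivWithin ℝ (Sf G x L) (M n) (γ t)) (M n) (γ t) :=
      (((Sf_contDiffOn (G := G) (x := x) hL).differentiableOn (by simp)) _
        (hγ.mem t ht)).hasFDerivWithinAt
    have h5 : HasDerivWithinAt γ (γ' t) (Icc 0 1) t :=
      ((hγ.smooth.differentiableOn (by simp)) t ht).hasDerivWithinAt
    have h6 : HasDerivWithinAt (fun t => Sf G x L (γ t))
        (fderivWithin ℝ (Sf G x L) (M n) (γ t) (γ' t)) (Icc 0 1) t :=
      h4.comp_hasDerivWithinAt t h5 hγ.mem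
    have h7 := (h6.const_mul 2).add_const (δ ^ 2)
    exact h7.sqrt (hpos _).ne'
  have hbound : ∀ t ∈ Icc (0 : ℝ) 1,
      (2 * fderivWithin ℝ (Sf G x L) (M n) (γ t) (γ' t)) / (2 * f t) ≤ nrm G (γ t) (γ' t) := by
    intro t ht
    have h4 := (le_abs_self _).trans (Sf_grad hG h1 he hL h2 (hγ.mem t ht) (γ' t))
    have hft : 0 < f t := Real.sqrt_pos.mpr (hpos _)
    have h5 : nrm G x (L (γ t)) ≤ f t := by
      rw [hnS]
      exact Real.sqrt_le_sqrt (by nlinarith)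
    rw [mul_div_mul_left _ _ (two_ne_zero), div_le_iff₀ hft]
    calc _ ≤ nrm G x (L (γ t)) * nrm G (γ t) (γ' t) := h4
      _ ≤ f t * nrm G (γ t) (γ' t) := mul_le_mul_of_nonneg_right h5 (nrm_nonneg _ _)
      _ = _ := mul_comm _ _
  have hint : IntegrableOn (fun t => nrm G (γ t) (γ' t)) (Icc 0 1) :=
    (RB.speed_cont G hG.smooth.continuous hγ).integrableOn_Icc
  have h4 := intervalIntegral.sub_le_integral_of_hasDeriv_right_of_le (zero_le_one)
    (fun t ht => (hfd t ht).continuousWithinAt)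
    (fun t ht => (hfd t ⟨ht.1.le, ht.2.le⟩).mono_of_mem_nhdsWithin
      (Icc_mem_nhdsGT_of_mem (Ioo_subset_Ico_self ht))) hint
    (fun t ht => hbound t ⟨ht.1.le, ht.2.le⟩)
  have h5 : f 0 = δ := by
    simp only [hf, hγ.source, Sf, hLx, map_zero, inner_zero_right, mul_zero, zero_add]
    exact Real.sqrt_sq hδ.le
  have h6 : nrm G x (L y) ≤ f 1 := by
    rw [hnS]
    simp only [hf, hγ.target]
    exact Real.sqrt_le_sqrt (by nlinarith)
  have h7 : len G γ = ∫ t in (0 : ℝ)..1, nrm G (γ t) (γ' t) := rfl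
  rw [h7]
  linarith

theorem geod_minimal (G : E n → E n →L[ℝ] E n) (hG : IsMetric G) (x : E n) (hx : x ∈ M n)
    (hE : ExpDiffeo G x) (c v : ℝ → E n) (h : IsGeod G 1 c v) (h0 : c 0 = x) :
    nrm G x (v 0) ≤ rdist G x (c 1) := by
  obtain ⟨e, L, h1, he, hL, h2, h3⟩ := hE
  have hc1 : c 1 = e (v 0) := h1 c v h h0
  have hLc : L (c 1) = v 0 := by
    rw [hc1]
    exact h3 _ ⟨c, v, h, h0, rfl⟩
  apply le_csInf
  · exact ⟨_, _, RB.seg_isPath hx (h.mem 1 ⟨zero_le_one, le_refl _⟩), rfl⟩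
  · rintro l ⟨γ, hγ, rfl⟩
    rw [← hLc]
    exact path_lower hG hx h1 he hL h2 h3 hγ

end KBR
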