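import Pool.Agent.helper21.KBR.Defs

noncomputable section

namespace KBR

open Set MeasureTheory
open scoped ContDiff RealInnerProductSpace

variable {n : ℕ}

/-- Gram operator of the pulled back (possibly degenerate) metric `ψ^* g`. -/
def pb (ψ : E n → E n) (G : E n → E n →L[ℝ] E n) (x : E n) : E n →L[ℝ] E n :=
  (ContinuousLinearMap.adjoint (fderiv ℝ ψ x)).comp ((G (ψ x)).comp (fderiv ℝ ψ x))

lemma pb_inner (ψ : E n → E n) (G : E n → E n →L[ℝ] E n) (x u v : E n) :
    ⟪pb ψ G x u, v⟫ = ⟪G (ψ x) (fderiv ℝ ψ x u), fderiv ℝ ψ x v⟫ := by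
  simp [pb, ContinuousLinearMap.adjoint_inner_left]

end KBR
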