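import Pool.Agent.helper21.KBR.Minimal
import Pool.Agent.helper21.KBR.Pull
import Pool.Agent.helper18.KBR.GeoFlow
import Pool.Agent.helper30.KBR.Transport

/-!
Orbit segments of the geodesic flow over the ball: they are geodesics, they are bounded,
they end on the sphere.
-/

noncomputable section

namespace KBR

open Set MeasureTheory Filter Topology
open scoped ContDiff RealInnerProductSpace

variable {n : ℕ} {G : E n → E n →L[ℝ] E n}

/-- the part of phase space over the ball -/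
def CM (n : ℕ) : Set (E n × E n) := {z | z.1 ∈ M n}

lemma isClosed_CM : IsClosed (CM n) := Metric.isClosed_closedBall.preimage continuous_fst

/-- the property of the flow delivered by `geodesic_flow` -/
def GeoProp (G : E n → E n →L[ℝ] E n) (φ : ℝ → E n × E n → E n × E n) : Prop :=
  ∀ z : E n × E n, z.1 ∈ M n → dsq G z ≤ 1 → ∀ s, (∀ r ∈ uIcc 0 s, (φ r z).1 ∈ M n) →
        dsq G (φ s z) = dsq G z ∧
        HasDerivAt (fun r => (φ r z).1) ((G (φ s z).1).inverse (φ s z).2) s ∧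
        ∀ w, HasDerivAt (fun r => ⟪(φ r z).2, w⟫)
          (1 / 2 * ⟪fderiv ℝ G (φ s z).1 w ((G (φ s z).1).inverse (φ s z).2),
            (G (φ s z).1).inverse (φ s z).2⟫) s

/-- velocity of a covector -/
def vl (G : E n → E n →L[ℝ] E n) (z : E n × E n) : E n := (G z.1).inverse z.2

lemma nrm_vl (hG : IsMetric G) {z : E n × E n} (hz : z.1 ∈ M n) :
    nrm G z.1 (vl G z) = Real.sqrt (dsq G z) := by
  unfold nrm vl dsq
  rw [hG.apply_inv hz, real_inner_comm]

lemma dsq_nonneg (hG : IsMetric G) {z : E n × E n} (hz : z.1 ∈ M n) : 0 ≤ dsq G z :=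
  hG.inv_nonneg hz _

section orbit

variable {φ : ℝ → E n × E n → E n × E n} {z : E n × E n}

/-- orbit segments are geodesics -/
lemma orbit_geod (hG : IsMetric G) (hgeo : GeoProp G φ)
    (hz : z.1 ∈ M n) (hz1 : dsq G z ≤ 1) {a b : ℝ} (hab : ∀ r ∈ Icc a b, r ∈ orbI φ (CM n) z) :
    IsGeod G (b - a) (fun r => (φ (a + r) z).1) (fun r => vl G (φ (a + r) z)) := by
  have hm : ∀ t ∈ Icc 0 (b - a), a + t ∈ orbI φ (CM n) z := fun t ht =>
    hab _ ⟨by linarith [ht.1], by linarith [ht.2]⟩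
  have hM : ∀ t ∈ Icc 0 (b - a), (φ (a + t) z).1 ∈ M n := fun t ht =>
    hm t ht _ right_mem_uIcc
  have hd : ∀ t : ℝ, HasDerivAt (fun s : ℝ => a + s) 1 t := fun t => by
    simpa using (hasDerivAt_id t).const_add a
  refine ⟨hM, fun t ht => ?_, fun t ht w => ?_⟩
  · have h1 := (hgeo z hz hz1 (a + t) (hm t ht)).2.1
    have h2 := HasDerivAt.scomp t h1 (hd t)
    rw [one_smul] at h2
    exact h2.hasDerivWithinAt
  · have h1 := (hgeo z hz hz1 (a + t) (hm t ht)).2.2 w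
    have h2 := HasDerivAt.scomp t h1 (hd t)
    rw [one_smul] at h2
    have h3 := h2.hasDerivWithinAt (s := Icc 0 (b - a))
    refine h3.congr (fun s hs => ?_) ?_
    · show ⟪G (φ (a + s) z).1 (vl G (φ (a + s) z)), w⟫ = ⟪(φ (a + s) z).2, w⟫
      rw [vl, hG.apply_inv (hM s hs)]
    · show ⟪G (φ (a + t) z).1 (vl G (φ (a + t) z)), w⟫ = ⟪(φ (a + t) z).2, w⟫
      rw [vl, hG.apply_inv (hM t ht)]

/-- reversed orbit segments are geodesics -/
lemma orbit_geod_neg (hG : IsMetric G) (hgeo : GeoProp G φ)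
    (hz : z.1 ∈ M n) (hz1 : dsq G z ≤ 1) {b : ℝ} (hab : ∀ r ∈ Icc 0 b, -r ∈ orbI φ (CM n) z) :
    IsGeod G b (fun r => (φ (-r) z).1) (fun r => -vl G (φ (-r) z)) := by
  have hM : ∀ t ∈ Icc 0 b, (φ (-t) z).1 ∈ M n := fun t ht =>
    hab t ht _ right_mem_uIcc
  have hd : ∀ t : ℝ, HasDerivAt (fun s : ℝ => -s) (-1) t := fun t => hasDerivAt_neg' t
  refine ⟨hM, fun t ht => ?_, fun t ht w => ?_⟩
  · have h1 := (hgeo z hz hz1 (-t) (hab t ht)).2.1
    have h2 := HasDerivAt.scomp t h1 (hd t)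
    rw [neg_one_smul] at h2
    exact h2.hasDerivWithinAt
  · have h1 := (hgeo z hz hz1 (-t) (hab t ht)).2.2 w
    have h2 := (HasDerivAt.scomp t h1 (hd t)).neg
    rw [neg_one_smul, neg_neg] at h2
    have h3 := h2.hasDerivWithinAt (s := Icc 0 b)
    have h4 : HasDerivWithinAt (fun s => ⟪G (φ (-s) z).1 (-vl G (φ (-s) z)), w⟫)
        (1 / 2 * ⟪fderiv ℝ G (φ (-t) z).1 w ((G (φ (-t) z).1).inverse (φ (-t) z).2),
            (G (φ (-t) z).1).inverse (φ (-t) z).2⟫) (Icc 0 b) t := by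
      refine h3.congr (fun s hs => ?_) ?_
      · show ⟪G (φ (-s) z).1 (-vl G (φ (-s) z)), w⟫ = -⟪(φ (-s) z).2, w⟫
        rw [map_neg, vl, hG.apply_inv (hM s hs), inner_neg_left]
      · show ⟪G (φ (-t) z).1 (-vl G (φ (-t) z)), w⟫ = -⟪(φ (-t) z).2, w⟫
        rw [map_neg, vl, hG.apply_inv (hM t ht), inner_neg_left]
    refine h4.congr_deriv ?_
    simp only [vl, map_neg, inner_neg_left, inner_neg_right, neg_neg]

lemma zero_mem_orbI (h0 : ∀ z, φ 0 z = z) (hz : z.1 ∈ M n) : (0 : ℝ) ∈ orbI φ (CM n) z := by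
  intro r hr
  rw [uIcc_self] at hr
  rw [hr, h0]
  exact hz

lemma orbI_sub {s r : ℝ} (hs : s ∈ orbI φ (CM n) z) (hr : r ∈ uIcc 0 s) :
    r ∈ orbI φ (CM n) z := fun t ht => hs t (uIcc_subset_uIcc_left hr ht)

lemma expDom_bdd {x : E n} (hE : ExpDiffeo G x) : ∃ K : ℝ, ∀ w ∈ expDom G x, ‖w‖ ≤ K := by
  obtain ⟨e, L, h1, he, hL, h2, h3⟩ := hE
  have hMc : IsCompact (M n) := isCompact_closedBall _ _
  obtain ⟨K, hK⟩ := hMc.exists_bound_of_continuousOn hL.continuousOn
  refine ⟨K, fun w hw => ?_⟩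
  obtain ⟨c, v, hg, hc0, hv0⟩ := hw
  have h4 := h1 c v hg hc0
  rw [← h3 w ⟨c, v, hg, hc0, hv0⟩, ← hv0, ← h4]
  exact hK _ (hg.mem 1 ⟨zero_le_one, le_refl _⟩)

/-- nontrapping -/
lemma orbI_bdd (hG : IsMetric G) (hgeo : GeoProp G φ) (h0 : ∀ z, φ 0 z = z)
    (hE : ∀ x ∈ M n, ExpDiffeo G x) (hz : z.1 ∈ M n) (hz0 : 0 < dsq G z) (hz1 : dsq G z ≤ 1) :
    Bornology.IsBounded (orbI φ (CM n) z) := by
  obtain ⟨K, hK⟩ := expDom_bdd (hE z.1 hz)
  have hv : vl G z ≠ 0 := by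
    intro h
    unfold dsq at hz0
    unfold vl at h
    rw [h, inner_zero_left] at hz0
    exact lt_irrefl _ hz0
  have hvn : 0 < ‖vl G z‖ := norm_pos_iff.mpr hv
  rw [isBounded_iff_forall_norm_le]
  refine ⟨K / ‖vl G z‖, fun s hs => ?_⟩
  rw [le_div_iff₀ hvn]
  rcases le_total 0 s with h | h
  · have hg := orbit_geod hG hgeo hz hz1 (a := 0) (b := s)
      (fun r hr => orbI_sub hs (by rw [uIcc_of_le h]; exact hr))
    have hg2 := hg.rescale (a := s) (T' := 1) h (by simp)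
    have h5 : s • vl G z ∈ expDom G z.1 := by
      refine ⟨_, _, hg2, ?_, ?_⟩
      · simp [h0]
      · simp [h0]
    have h6 := hK _ h5
    rwa [norm_smul] at h6
  · have hg := orbit_geod_neg hG hgeo hz hz1 (b := -s)
      (fun r hr => orbI_sub hs (by rw [uIcc_of_ge h]; exact ⟨by linarith [hr.2], by linarith [hr.1]⟩))
    have hg2 := hg.rescale (a := -s) (T' := 1) (by linarith) (by simp)
    have h5 : (-s) • -vl G z ∈ expDom G z.1 := by
      refine ⟨_, _, hg2, ?_, ?_⟩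
      · simp [h0]
      · simp [h0]
    have h6 := hK _ h5
    rwa [norm_smul, norm_neg, norm_neg] at h6

/-- the orbit segment is a compact interval whose end points lie over the sphere -/
lemma orbI_interval (hφ : Continuous (fun q : ℝ × (E n × E n) => φ q.1 q.2))
    (h0 : ∀ z, φ 0 z = z) (hz : z.1 ∈ M n) (hb : Bornology.IsBounded (orbI φ (CM n) z)) :
    ∃ a b : ℝ, a ≤ 0 ∧ 0 ≤ b ∧ orbI φ (CM n) z = Icc a b ∧ (φ a z).1 ∈ bM n ∧
      (φ b z).1 ∈ bM n := by
  set I := orbI φ (CM n) z with hI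
  have hIc : IsClosed I := by
    have := (orbI_closed φ hφ (CM n) isClosed_CM).preimage
      (f := fun s : ℝ => (s, z)) (by fun_prop)
    exact this
  have h0I : (0 : ℝ) ∈ I := zero_mem_orbI h0 hz
  have hne : I.Nonempty := ⟨0, h0I⟩
  have hcomp : IsCompact I := Metric.isCompact_of_isClosed_isBounded hIc hb
  set b := sSup I with hbdef
  set a := sInf I with hadef
  have hbI : b ∈ I := hcomp.sSup_mem hne
  have haI : a ∈ I := hcomp.sInf_mem hne
  have ha0 : a ≤ 0 := csInf_le hcomp.bddBelow h0I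
  have hb0 : 0 ≤ b := le_csSup hcomp.bddAbove h0I
  have hIcc : I = Icc a b := by
    ext s
    constructor
    · intro hs
      exact ⟨csInf_le hcomp.bddBelow hs, le_csSup hcomp.bddAbove hs⟩
    · intro hs
      rcases le_total 0 s with h | h
      · exact orbI_sub hbI (by rw [uIcc_of_le hb0]; exact ⟨h, hs.2⟩)
      · exact orbI_sub haI (by rw [uIcc_of_ge ha0]; exact ⟨hs.1, h⟩)
  have hbdry : ∀ s ∈ I, (∀ ε > 0, ∃ r, |r - s| < ε ∧ r ∉ I ∧
      ∀ t ∈ uIcc 0 r, t ∈ I ∨ |t - s| < ε) → (φ s z).1 ∈ bM n := by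
    intro s hs hrs
    have hsM : (φ s z).1 ∈ M n := hs s right_mem_uIcc
    by_contra hnb
    have hball : (φ s z).1 ∈ Metric.ball (0 : E n) 1 := by
      rw [M, Metric.mem_closedBall] at hsM
      rw [bM, Metric.mem_sphere] at hnb
      exact Metric.mem_ball.mpr (lt_of_le_of_ne hsM hnb)
    have hc : Continuous (fun r : ℝ => (φ r z).1) :=
      continuous_fst.comp (hφ.comp (continuous_id.prodMk continuous_const))
    have hn := hc.continuousAt.preimage_mem_nhds (Metric.isOpen_ball.mem_nhds hball)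
    obtain ⟨ε, hε, hεs⟩ := Metric.mem_nhds_iff.mp hn
    obtain ⟨r, hr1, hr2, hr3⟩ := hrs ε hε
    apply hr2
    intro t ht
    rcases hr3 t ht with h | h
    · exact h t right_mem_uIcc
    · have := hεs (by rw [Metric.mem_ball, Real.dist_eq]; exact h : t ∈ Metric.ball s ε)
      exact ball_subset_M this
  refine ⟨a, b, ha0, hb0, hIcc, hbdry a haI fun ε hε => ?_, hbdry b hbI fun ε hε => ?_⟩
  · refine ⟨a - ε / 2, ?_, ?_, fun t ht => ?_⟩
    · rw [abs_lt]; constructor <;> linarith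
    · rw [hIcc]; intro h; linarith [h.1]
    · rw [uIcc_of_ge (by linarith)] at ht
      by_cases hta : a ≤ t
      · left; rw [hIcc]; exact ⟨hta, ht.2.trans hb0⟩
      · right; push Not at hta; rw [abs_lt]; constructor <;> linarith [ht.1]
  · refine ⟨b + ε / 2, ?_, ?_, fun t ht => ?_⟩
    · rw [abs_lt]; constructor <;> linarith
    · rw [hIcc]; intro h; linarith [h.2]
    · rw [uIcc_of_le (by linarith)] at ht
      by_cases hta : t ≤ b
      · left; rw [hIcc]; exact ⟨ha0.trans ht.1, hta⟩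
      · right; push Not at hta; rw [abs_lt]; constructor <;> linarith [ht.2]

end orbit

end KBR
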