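import Pool.Agent.helper21.KBR.Orbit

/-!
Length comparison along a maximal geodesic of the first metric.
-/

noncomputable section

namespace KBR

open Set MeasureTheory Filter Topology
open scoped ContDiff RealInnerProductSpace

variable {n : ℕ} {G G₂ : E n → E n →L[ℝ] E n}

lemma nrm_pb (ψ : E n → E n) (G : E n → E n →L[ℝ] E n) (x u : E n) :
    nrm (pb ψ G) x u = nrm G (ψ x) (fderiv ℝ ψ x u) := by
  unfold nrm
  rw [pb_inner]

lemma adj_continuous : Continuous (fun A : E n →L[ℝ] E n => ContinuousLinearMap.adjoint A) :=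
  LinearIsometryEquiv.continuous _

lemma pb_continuous (ψ : E n → E n) (hψ : ContDiff ℝ ∞ ψ) (hG : Continuous G) :
    Continuous (pb ψ G) := by
  have h6 : Continuous (fderiv ℝ ψ) := hψ.continuous_fderiv (by simp)
  have h7 : Continuous (fun x => ContinuousLinearMap.adjoint (fderiv ℝ ψ x)) :=
    adj_continuous.comp h6
  have h8 : Continuous (fun x => (G (ψ x)).comp (fderiv ℝ ψ x)) :=
    (hG.comp hψ.continuous).clm_comp h6
  exact h7.clm_comp h8

lemma rdist_le_len {x y : E n} {c : ℝ → E n} (hc : IsPath c x y) : rdist G x y ≤ len G c := by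
  apply csInf_le
  · refine ⟨0, ?_⟩
    rintro l ⟨γ, -, rfl⟩
    exact RB.len_nonneg G γ
  · exact ⟨c, hc, rfl⟩

lemma IsGeod.contDiffOn (hG : IsMetric G) {c v : ℝ → E n} {T : ℝ} (hT : 0 < T)
    (h : IsGeod G T c v) : ContDiffOn ℝ 1 c (Icc 0 T) := by
  have hu := uniqueDiffOn_Icc (a := (0 : ℝ)) (b := T) hT
  have hd : ∀ t ∈ Icc 0 T, derivWithin c (Icc 0 T) t = v t := fun t ht =>
    (h.vel t ht).derivWithin (hu t ht)
  rw [show (1 : WithTop ℕ∞) = 0 + 1 by simp, contDiffOn_succ_iff_derivWithin hu]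
  refine ⟨fun t ht => (h.vel t ht).differentiableWithinAt, by simp, ?_⟩
  rw [contDiffOn_zero]
  exact (h.vel_continuousOn hG).congr hd

/-- a `g₁`-geodesic between boundary points is not longer than its `ψ^* g₂`-length -/
theorem geod_compare (hG : IsMetric G) (hE : ∀ x ∈ M n, ExpDiffeo G x)
    (ψ : E n → E n) (hψ : ContDiff ℝ ∞ ψ) (hψM : MapsTo ψ (M n) (M n))
    (hψb : ∀ x ∈ bM n, ψ x = x)
    (hd : ∀ a ∈ bM n, ∀ b ∈ bM n, rdist G a b ≤ rdist G₂ a b)
    {c v : ℝ → E n} (h : IsGeod G 1 c v) (h0 : c 0 ∈ bM n) (h1 : c 1 ∈ bM n) :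
    nrm G (c 0) (v 0) ≤ ∫ t in (0 : ℝ)..1, nrm (pb ψ G₂) (c t) (v t) := by
  have hcM : ∀ t ∈ Icc (0 : ℝ) 1, c t ∈ M n := h.mem
  have h3 := geod_minimal G hG (c 0) (hcM 0 ⟨le_refl _, zero_le_one⟩)
    (hE _ (hcM 0 ⟨le_refl _, zero_le_one⟩)) c v h rfl
  have hpath : IsPath (fun t => ψ (c t)) (c 0) (c 1) := by
    refine ⟨?_, hψb _ h0, hψb _ h1, fun t ht => hψM (hcM t ht)⟩
    exact (hψ.of_le (by simp)).comp_contDiffOn (h.contDiffOn hG one_pos)
  have h4 : rdist G₂ (c 0) (c 1) ≤ len G₂ (fun t => ψ (c t)) := rdist_le_len hpath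
  have h5 : len G₂ (fun t => ψ (c t)) = ∫ t in (0 : ℝ)..1, nrm (pb ψ G₂) (c t) (v t) := by
    unfold len
    apply intervalIntegral.integral_congr
    intro t ht
    rw [uIcc_of_le zero_le_one] at ht
    show nrm G₂ (ψ (c t)) (derivWithin (fun t => ψ (c t)) (Icc 0 1) t) = _
    have h6 : HasDerivWithinAt (fun t => ψ (c t)) (fderiv ℝ ψ (c t) (v t)) (Icc 0 1) t := by
      have h7 : HasFDerivAt ψ (fderiv ℝ ψ (c t)) (c t) :=
        ((hψ.differentiable (by simp)) (c t)).hasFDerivAt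
      exact h7.comp_hasDerivWithinAt t (h.vel t ht)
    rw [h6.derivWithin (uniqueDiffOn_Icc one_pos t ht)]
    exact (nrm_pb ψ G₂ _ _).symm
  calc nrm G (c 0) (v 0) ≤ rdist G (c 0) (c 1) := h3
    _ ≤ rdist G₂ (c 0) (c 1) := hd _ h0 _ h1
    _ ≤ _ := by rw [← h5]; exact h4

variable {φ : ℝ → E n × E n → E n × E n} {z : E n × E n}

/-- the integrand -/
def Fz (G B : E n → E n →L[ℝ] E n) (z : E n × E n) : ℝ :=
  Real.sqrt (dsq G z) * (nrm B z.1 (vl G z) - Real.sqrt (dsq G z))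

theorem orbit_integral (hG : IsMetric G) (hE : ∀ x ∈ M n, ExpDiffeo G x)
    (hG₂ : Continuous G₂)
    (ψ : E n → E n) (hψ : ContDiff ℝ ∞ ψ) (hψM : MapsTo ψ (M n) (M n))
    (hψb : ∀ x ∈ bM n, ψ x = x)
    (hd : ∀ a ∈ bM n, ∀ b ∈ bM n, rdist G a b ≤ rdist G₂ a b)
    (hφ : Continuous (fun q : ℝ × (E n × E n) => φ q.1 q.2))
    (h0 : ∀ z, φ 0 z = z) (hgeo : GeoProp G φ)
    (hz : z.1 ∈ M n) (hz0 : 0 < dsq G z) (hz1 : dsq G z ≤ 1) :
    0 ≤ ∫ r in orbI φ (CM n) z, Fz G (pb ψ G₂) (φ r z) := by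
  obtain ⟨a, b, ha, hb, hI, hea, heb⟩ := orbI_interval hφ h0 hz (orbI_bdd hG hgeo h0 hE hz hz0 hz1)
  rcases eq_or_lt_of_le (ha.trans hb) with hab | hab
  · rw [hI, ← hab, Icc_self]
    simp
  have hmem : ∀ r ∈ Icc a b, r ∈ orbI φ (CM n) z := fun r hr => by rw [hI]; exact hr
  set σ := Real.sqrt (dsq G z) with hσ
  have hσ0 : 0 ≤ σ := Real.sqrt_nonneg _
  have hdsq : ∀ r ∈ Icc a b, dsq G (φ r z) = dsq G z := fun r hr =>
    (hgeo z hz hz1 r (hmem r hr)).1
  have hg := orbit_geod hG hgeo hz hz1 (a := a) (b := b) hmem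
  set ℓ := b - a with hℓ
  have hℓ0 : 0 < ℓ := sub_pos.mpr hab
  have hg2 := hg.rescale (a := ℓ) (T' := 1) hℓ0.le (by simp)
  have hcmp := geod_compare hG hE ψ hψ hψM hψb hd hg2 (by simpa using hea)
    (by
      have : a + ℓ * 1 = b := by rw [hℓ]; ring
      rw [this]; exact heb)
  -- the right-hand side
  set f : ℝ → ℝ := fun r => nrm (pb ψ G₂) (φ r z).1 (vl G (φ r z)) with hf
  have hR : ∫ t in (0 : ℝ)..1, nrm (pb ψ G₂) (φ (a + ℓ * t) z).1 (ℓ • vl G (φ (a + ℓ * t) z)) =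
      ∫ r in a..b, f r := by
    have e1 : ∀ t, nrm (pb ψ G₂) (φ (a + ℓ * t) z).1 (ℓ • vl G (φ (a + ℓ * t) z)) =
        ℓ * f (a + ℓ * t) := by
      intro t
      rw [nrm_smul, abs_of_pos hℓ0]
    simp_rw [e1]
    rw [intervalIntegral.integral_const_mul, intervalIntegral.integral_comp_add_mul f hℓ0.ne' a]
    simp only [mul_zero, add_zero, mul_one, smul_eq_mul]
    rw [← mul_assoc, mul_inv_cancel₀ hℓ0.ne', one_mul]
    congr 1
    rw [hℓ]; ring
  have hL : nrm G (φ (a + ℓ * 0) z).1 (ℓ • vl G (φ (a + ℓ * 0) z)) = ℓ * σ := by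
    have haI : a ∈ Icc a b := ⟨le_refl _, hab.le⟩
    rw [nrm_smul, abs_of_pos hℓ0, mul_zero, add_zero,
      nrm_vl hG (hmem a haI a right_mem_uIcc), hdsq a haI]
  rw [hR, hL] at hcmp
  -- rewrite the integral
  have hfc : ContinuousOn f (Icc a b) := by
    have h1 : ContinuousOn (fun r => (φ r z).1) (Icc a b) := by
      have : Continuous (fun r : ℝ => (φ r z).1) :=
        continuous_fst.comp (hφ.comp (continuous_id.prodMk continuous_const))
      exact this.continuousOn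
    have h2 : ContinuousOn (fun r => vl G (φ r z)) (Icc a b) := by
      have h3 := hg.vel_continuousOn hG
      have h4 : ContinuousOn (fun r : ℝ => r - a) (Icc a b) := by fun_prop
      have h5 := h3.comp h4 (fun r hr => ⟨by linarith [hr.1], by linarith [hr.2]⟩)
      refine h5.congr (fun r _ => ?_)
      simp
    have hBc : Continuous (pb ψ G₂) := pb_continuous ψ hψ hG₂
    have h9 := RB.nrm_cont (pb ψ G₂) hBc
    have h10 : ContinuousOn (fun r => ((φ r z).1, vl G (φ r z))) (Icc a b) := h1.prodMk h2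
    have h11 := h9.comp_continuousOn h10
    exact h11
  have hint : ∫ r in orbI φ (CM n) z, Fz G (pb ψ G₂) (φ r z) = σ * (∫ r in a..b, f r) -
      σ ^ 2 * ℓ := by
    rw [hI, integral_Icc_eq_integral_Ioc, ← intervalIntegral.integral_of_le hab.le]
    have e2 : ∫ r in a..b, Fz G (pb ψ G₂) (φ r z) = ∫ r in a..b, (σ * f r - σ ^ 2) := by
      apply intervalIntegral.integral_congr
      intro r hr
      rw [uIcc_of_le hab.le] at hr
      show Fz G (pb ψ G₂) (φ r z) = σ * f r - σ ^ 2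
      unfold Fz
      rw [hdsq r hr, ← hσ]
      ring
    rw [e2, intervalIntegral.integral_sub, intervalIntegral.integral_const_mul,
      intervalIntegral.integral_const]
    · simp only [smul_eq_mul]
      ring
    · exact (hfc.intervalIntegrable_of_Icc hab.le).const_mul σ
    · exact intervalIntegrable_const
  rw [hint]
  nlinarith [mul_le_mul_of_nonneg_left hcmp hσ0]

end KBR
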