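import Pool.Agent.helper21.KBR.Inv

/-!
Geodesics: continuity of the velocity, constant speed, reparametrization.
-/

noncomputable section

namespace KBR

open Set MeasureTheory Filter Topology
open scoped ContDiff RealInnerProductSpace

variable {n : ℕ} {G : E n → E n →L[ℝ] E n} {T : ℝ} {c v : ℝ → E n}

lemma IsGeod.continuousOn (h : IsGeod G T c v) : ContinuousOn c (Icc 0 T) :=
  fun t ht => (h.vel t ht).continuousWithinAt

lemma IsGeod.vel_continuousOn (hG : IsMetric G) (h : IsGeod G T c v) :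
    ContinuousOn v (Icc 0 T) := by
  intro t ht
  obtain ⟨q, -, hq⟩ := h.mom_deriv ht
  have h1 : ContinuousWithinAt (fun s => (G (c s)).inverse) (Icc 0 T) t :=
    (hG.contDiffAt_inv (h.mem t ht)).continuousAt.comp_continuousWithinAt (h.continuousOn t ht)
  have h2 : ContinuousWithinAt (fun s => (G (c s)).inverse (G (c s) (v s))) (Icc 0 T) t :=
    h1.clm_apply hq.continuousWithinAt
  exact h2.congr (fun s hs => h.vel_eq hG hs) (h.vel_eq hG ht)

/-- geodesics have constant speed -/
theorem geod_speed (G : E n → E n →L[ℝ] E n) (hG : IsMetric G) (T : ℝ) (c v : ℝ → E n)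
    (h : IsGeod G T c v) : ∀ t ∈ Icc 0 T, nrm G (c t) (v t) = nrm G (c 0) (v 0) := by
  have hder : ∀ t ∈ Icc 0 T, HasDerivWithinAt (fun s => ⟪G (c s) (v s), v s⟫) 0 (Icc 0 T) t := by
    intro t ht
    obtain ⟨q, hqw, hq⟩ := h.mom_deriv ht
    have hx := h.mem t ht
    have hK : HasFDerivAt (fun y => (G y).inverse) (fderiv ℝ (fun y => (G y).inverse) (c t))
        (c t) := ((hG.contDiffAt_inv hx).differentiableAt (by simp)).hasFDerivAt
    have h1 : HasDerivWithinAt (fun s => (G (c s)).inverse)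
        (fderiv ℝ (fun y => (G y).inverse) (c t) (v t)) (Icc 0 T) t :=
      hK.comp_hasDerivWithinAt t (h.vel t ht)
    have h2 := h1.clm_apply hq
    have h3 := HasDerivWithinAt.inner ℝ hq h2
    have h4 : HasDerivWithinAt (fun s => ⟪G (c s) (v s), v s⟫)
        (⟪G (c t) (v t), (fderiv ℝ (fun y => (G y).inverse) (c t) (v t)) (G (c t) (v t)) +
          (G (c t)).inverse q⟫ + ⟪q, (G (c t)).inverse (G (c t) (v t))⟫) (Icc 0 T) t := by
      refine h3.congr (fun s hs => ?_) ?_
      · show ⟪G (c s) (v s), v s⟫ = ⟪G (c s) (v s), (G (c s)).inverse (G (c s) (v s))⟫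
        rw [← h.vel_eq hG hs]
      · show ⟪G (c t) (v t), v t⟫ = ⟪G (c t) (v t), (G (c t)).inverse (G (c t) (v t))⟫
        rw [← h.vel_eq hG ht]
    convert h4 using 1
    rw [hG.fderiv_inv hx, ← h.vel_eq hG ht, inner_add_right]
    simp only [neg_apply, ContinuousLinearMap.comp_apply]
    rw [← h.vel_eq hG ht, inner_neg_right, real_inner_comm ((G (c t)).inverse _) (G (c t) (v t)),
      hG.inv_symm hx, ← h.vel_eq hG ht, real_inner_comm ((G (c t)).inverse q),
      hG.inv_symm hx, ← h.vel_eq hG ht, real_inner_comm q (v t), real_inner_comm _ (v t)]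
    have := hqw (v t)
    rw [real_inner_comm] at this
    rw [real_inner_comm] at this
    linarith
  intro t ht
  have h1 := constant_of_derivWithin_zero (fun s hs => (hder s hs).differentiableWithinAt)
    (fun s hs => (hder s ⟨hs.1, hs.2.le⟩).derivWithin
      (uniqueDiffOn_Icc (lt_of_le_of_lt hs.1 hs.2) s ⟨hs.1, hs.2.le⟩)) t ht
  unfold nrm
  rw [h1]

/-- constant speed reparametrization -/
lemma IsGeod.rescale (h : IsGeod G T c v) {a T' : ℝ} (ha : 0 ≤ a) (haT : a * T' ≤ T) :
    IsGeod G T' (fun s => c (a * s)) (fun s => a • v (a * s)) := by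
  have hmap : MapsTo (fun s => a * s) (Icc 0 T') (Icc 0 T) := fun s hs =>
    ⟨mul_nonneg ha hs.1, (mul_le_mul_of_nonneg_left hs.2 ha).trans haT⟩
  have hd : ∀ t, HasDerivWithinAt (fun s => a * s) a (Icc 0 T') t := by
    intro t
    simpa using (hasDerivWithinAt_id t (Icc 0 T')).const_mul a
  refine ⟨fun t ht => h.mem _ (hmap ht), fun t ht => ?_, fun t ht w => ?_⟩
  · exact HasDerivWithinAt.scomp t (h.vel _ (hmap ht)) (hd t) hmap
  · have h1 := (HasDerivWithinAt.scomp t (h.eq _ (hmap ht) w) (hd t) hmap).const_mul a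
    have h2 : (fun s => ⟪G (c (a * s)) (a • v (a * s)), w⟫) =
        fun s => a * ((fun s => ⟪G (c s) (v s), w⟫) ∘ fun s => a * s) s := by
      funext s
      simp [inner_smul_left]
    rw [h2]
    refine HasDerivWithinAt.congr_deriv h1 ?_
    simp only [map_smul, inner_smul_left, inner_smul_right, conj_trivial, smul_eq_mul]
    ring

/-- the part of a geodesic after time `a` -/
lemma IsGeod.shift (h : IsGeod G T c v) {a T' : ℝ} (ha : 0 ≤ a) (haT : a + T' ≤ T) :
    IsGeod G T' (fun s => c (a + s)) (fun s => v (a + s)) := by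
  have hmap : MapsTo (fun s => a + s) (Icc 0 T') (Icc 0 T) := fun s hs =>
    ⟨add_nonneg ha hs.1, (add_le_add_right hs.2 a).trans haT⟩
  have hd : ∀ t, HasDerivWithinAt (fun s => a + s) 1 (Icc 0 T') t := by
    intro t
    simpa using (hasDerivWithinAt_id t (Icc 0 T')).const_add a
  refine ⟨fun t ht => h.mem _ (hmap ht), fun t ht => ?_, fun t ht w => ?_⟩
  · have := HasDerivWithinAt.scomp t (h.vel _ (hmap ht)) (hd t) hmap
    rw [one_smul] at this
    exact this
  · have := HasDerivWithinAt.scomp t (h.eq _ (hmap ht) w) (hd t) hmap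
    rw [one_smul] at this
    exact this

end KBR
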