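import Pool.Agent.helper21.KBR.Final

/-!
# Definitions used in the statements of the boundary rigidity theorems

Everything takes place in the closed unit ball `KBR.M n` of `KBR.E n = ℝⁿ`, with boundary sphere
`KBR.bM n`.  A field of endomorphisms `G : Fld n` represents the bilinear form field
`g_x(u, v) = ⟪G x u, v⟫` (written `gm G x u v`).
-/

noncomputable section

namespace KBR.St

open Set MeasureTheory
open scoped ContDiff RealInnerProductSpace

variable {n : ℕ}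

/-- fields of endomorphisms of `ℝⁿ` -/
abbrev Fld (n : ℕ) : Type := E n → E n →L[ℝ] E n

/-- the bilinear form field `g_x(u, v) = ⟪G x u, v⟫` -/
def gm (G : Fld n) (x u v : E n) : ℝ := ⟪G x u, v⟫

/-- its derivative in the direction `w`: `(D_w g)_x(u, v)` -/
def dgm (G : Fld n) (x w u v : E n) : ℝ := ⟪fderiv ℝ G x w u, v⟫

/-- value `J_x v` of a field of endomorphisms on a tangent vector -/
def act (J : Fld n) (x v : E n) : E n := J x v

/-- differential `dψ_x v` -/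
def dif (ψ : E n → E n) (x v : E n) : E n := fderiv ℝ ψ x v

/-- smooth field of endomorphisms -/
def SmoothFld (G : Fld n) : Prop := ContDiff ℝ ∞ G

/-- smooth map `ℝⁿ → ℝⁿ` -/
def SmoothMap (ψ : E n → E n) : Prop := ContDiff ℝ ∞ ψ

/-- `f` is smooth on the set `s` (up to its boundary) -/
def SmoothOn (f : E n → E n) (s : Set (E n)) : Prop := ContDiffOn ℝ ∞ f s

/-- the curve `c` has velocity `w` at time `t` within `[0,T]` -/
def Vel (c : ℝ → E n) (w : E n) (T t : ℝ) : Prop := HasDerivWithinAt c w (Icc 0 T) t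

/-- the function `f` has derivative `a` at time `t` within `[0,T]` -/
def Der (f : ℝ → ℝ) (a : ℝ) (T t : ℝ) : Prop := HasDerivWithinAt f a (Icc 0 T) t

/-- `g_x(u, v) = ⟪G x u, v⟫` is a smooth Riemannian metric on the closed ball (smooth up to the
boundary). -/
structure Metric (G : Fld n) : Prop where
  smooth : SmoothFld G
  symm : ∀ x ∈ M n, ∀ u v, gm G x u v = gm G x v u
  pos : ∀ x ∈ M n, ∀ v, v ≠ 0 → 0 < gm G x v v

/-- `c : [0,T] → M` is a geodesic with velocity `v`: Euler–Lagrange equation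
`d/dt g(c', w) = ½ (D_w g)(c', c')` for all constant `w`. -/
structure Geod (G : Fld n) (T : ℝ) (c v : ℝ → E n) : Prop where
  mem : ∀ t ∈ Icc 0 T, c t ∈ M n
  vel : ∀ t ∈ Icc 0 T, Vel c (v t) T t
  eq : ∀ t ∈ Icc 0 T, ∀ w : E n,
    Der (fun s => gm G (c s) (v s) w) (1 / 2 * dgm G (c t) w (v t) (v t)) T t

/-- maximal domain of the exponential map at `x`: initial velocities of the geodesics
`[0,1] → M` starting at `x` -/
def expDom (G : Fld n) (x : E n) : Set (E n) :=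
  {w | ∃ c v, Geod G 1 c v ∧ c 0 = x ∧ v 0 = w}

/-- `exp_x` is a diffeomorphism from its maximal domain onto `M` (`e` is the exponential map,
`L` its inverse). -/
def ExpDiffeo (G : Fld n) (x : E n) : Prop :=
  ∃ e L : E n → E n,
    (∀ c v, Geod G 1 c v → c 0 = x → c 1 = e (v 0)) ∧
    SmoothOn e (expDom G x) ∧ SmoothOn L (M n) ∧
    (∀ y ∈ M n, L y ∈ expDom G x ∧ e (L y) = y) ∧ (∀ w ∈ expDom G x, L (e w) = w)

/-- the `2`-form (or bilinear form) field `ω_x(u, v) = ⟪Ω x u, v⟫` satisfies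
`(D_u ω)(v, w) + (D_v ω)(w, u) + (D_w ω)(u, v) = 0` on `M`, that is `dω = 0` if it is
alternating. -/
def Closed2 (Ω : Fld n) : Prop :=
  ∀ x ∈ M n, ∀ u v w, dgm Ω x u v w + dgm Ω x v w u + dgm Ω x w u v = 0

/-- the field representing `ω_x(u, v) = g_x(J_x u, v)` -/
def fund (G J : Fld n) : Fld n := fun y => (G y).comp (J y)

/-- `J` is a smooth almost complex structure on `M`, the metric `g` is `J`-invariant and its
fundamental form `ω(u, v) = g(J u, v)` is closed. -/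
structure AlmostKahler (G J : Fld n) : Prop where
  metric : Metric G
  smoothJ : SmoothFld J
  sq : ∀ x ∈ M n, ∀ v, act J x (act J x v) = -v
  inv : ∀ x ∈ M n, ∀ u v, gm G x (act J x u) (act J x v) = gm G x u v
  closed : Closed2 (fund G J)

/-- `ψ : M → M` is smooth and is the identity on the boundary. -/
structure BdMap (ψ : E n → E n) : Prop where
  smooth : SmoothMap ψ
  maps : ∀ x ∈ M n, ψ x ∈ M n
  bd : ∀ x ∈ bM n, ψ x = x

/-- `dψ ∘ J₁ = J₂ ∘ dψ` on `M` -/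
def PseudoHol (J₁ J₂ : Fld n) (ψ : E n → E n) : Prop :=
  ∀ x ∈ M n, ∀ v, dif ψ x (act J₁ x v) = act J₂ (ψ x) (dif ψ x v)

/-- `ψ^* g₂ = g₁` on `M` -/
def PullEq (G₁ G₂ : Fld n) (ψ : E n → E n) : Prop :=
  ∀ x ∈ M n, ∀ u v, gm G₂ (ψ x) (dif ψ x u) (dif ψ x v) = gm G₁ x u v

/-- `d_{g₁} ≤ d_{g₂}` on `∂M × ∂M` -/
def BdLe (G₁ G₂ : Fld n) : Prop := ∀ a ∈ bM n, ∀ b ∈ bM n, rdist G₁ a b ≤ rdist G₂ a b

/-- `d_{g₂}(a, b) ≤ d_{g₁}(a, b) + o(|a - b|)` as `b → a` in `∂M`, for every `a ∈ ∂M` -/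
def BdTangent (G₁ G₂ : Fld n) : Prop :=
  ∀ a ∈ bM n, ∀ ε > 0, ∃ δ > 0, ∀ b ∈ bM n, ‖b - a‖ < δ →
    rdist G₂ a b ≤ rdist G₁ a b + ε * ‖b - a‖

lemma Metric.old {G : Fld n} (h : Metric G) : IsMetric G := ⟨h.smooth, h.symm, h.pos⟩

lemma Geod.old {G : Fld n} {T : ℝ} {c v : ℝ → E n} (h : Geod G T c v) : IsGeod G T c v :=
  ⟨h.mem, h.vel, h.eq⟩

lemma Geod.new {G : Fld n} {T : ℝ} {c v : ℝ → E n} (h : IsGeod G T c v) : Geod G T c v :=
  ⟨h.mem, h.vel, h.eq⟩

lemma expDom_eq (G : Fld n) (x : E n) : expDom G x = KBR.expDom G x := by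
  ext w
  constructor
  · rintro ⟨c, v, h, h0, hw⟩
    exact ⟨c, v, h.old, h0, hw⟩
  · rintro ⟨c, v, h, h0, hw⟩
    exact ⟨c, v, Geod.new h, h0, hw⟩

lemma ExpDiffeo.old {G : Fld n} {x : E n} (h : ExpDiffeo G x) : KBR.ExpDiffeo G x := by
  obtain ⟨e, L, h1, h2, h3, h4, h5⟩ := h
  rw [expDom_eq] at h2 h5
  refine ⟨e, L, fun c v hg h0 => h1 c v (Geod.new hg) h0, h2, h3, fun y hy => ?_, h5⟩
  have := h4 y hy
  rwa [expDom_eq] at this

lemma AlmostKahler.old {G J : Fld n} (h : AlmostKahler G J) : IsAlmostKahler G J :=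
  ⟨h.metric.old, h.smoothJ, h.sq, h.inv, h.closed⟩

end KBR.St
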